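import Pool.Agent.KS6_41.TD.UltraRay

/-! Two closed paths of prescribed lengths with exactly one common vertex, in infinite graphs of
diameter at most three with a ray. -/

set_option autoImplicit false

namespace Pool.Agent.KS41TD.GenLink

open Filter

universe u

variable {V : Type u} {G : SimpleGraph V}

/-- two closed paths of lengths `m` and `n` which share exactly one vertex -/
def HasBow (G : SimpleGraph V) (m n : ℕ) : Prop :=
  ∃ (v : V) (I J : List V), IsLink G v v m I ∧ IsLink G v v n J ∧ ∀ w ∈ I, w ∉ J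

theorem HasBow.symm {m n : ℕ} (h : HasBow G m n) : HasBow G n m := by
  obtain ⟨v, I, J, hI, hJ, h⟩ := h
  exact ⟨v, J, I, hJ, hI, fun w hw hw' => h w hw' hw⟩

theorem bow_of_lk_seg {v : V} {m n : ℕ} {F : Finset V} (h : Lk G v v m) (h' : Seg G v v n F) :
    HasBow G m n := by
  classical
  obtain ⟨J, hJ, -⟩ := h'
  obtain ⟨I, hI, hIF⟩ := h J.toFinset
  exact ⟨v, I, J, hI, hJ, fun w hw hw' => hIF w hw (by simpa using hw')⟩

/-- closed paths through `h` which may use `j` and avoid any other finite set -/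
def Cl (G : SimpleGraph V) (h j : V) (n : ℕ) : Prop :=
  ∀ F : Finset V, j ∉ F → Seg G h h n F

theorem cl_of_lk {h j : V} {m n : ℕ} (hne : h ≠ j) (h1 : Lk G h j m) (h2 : Lk G h j n) :
    Cl G h j (m + n) := by
  classical
  intro F hF
  exact (h1 (insert h F)).trans_lk h2.symm hne hne hF

theorem bow_of_cl_cl {h j j' : V} {m n : ℕ} (hne : j ≠ j') (h1 : Cl G h j m)
    (h2 : Cl G h j' n) : HasBow G m n := by
  classical
  obtain ⟨I, hI, hIF⟩ := h1 {j'} (by simpa using hne)
  obtain ⟨J, hJ, hJF⟩ := h2 I.toFinset (by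
    intro hmem
    rw [List.mem_toFinset] at hmem
    exact hIF j' hmem (by simp))
  exact ⟨h, I, J, hI, hJ, fun w hw hw' => hJF w hw' (by simpa using hw)⟩

/-- robust closed paths through almost all members of a family -/
theorem closed_of_ln {y : ℕ → V} {ℓ₁ ℓ₂ : ℕ} (hy : GenLink.Inf y) (h : Ln G y ℓ₁)
    (h' : Ln G y ℓ₂) : ∀ᶠ i in U, Lk G (y i) (y i) (ℓ₁ + ℓ₂) := by
  classical
  filter_upwards [h, h'] with i hi hi' F
  obtain ⟨j, hj, hj', hjF⟩ := (hi.and (hi'.and (hy (insert (y i) F)))).exists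
  simp only [Finset.mem_insert, not_or] at hjF
  exact (hj (insert (y i) F)).trans_lk hj'.symm (Ne.symm hjF.1) (Ne.symm hjF.1) hjF.2

theorem bow_of_ln {y : ℕ → V} {a b c d m n : ℕ} (hy : GenLink.Inf y) (ha : Ln G y a)
    (hb : Ln G y b) (hc : Ln G y c) (hd : Ln G y d) (hm : a + b = m) (hn : c + d = n) :
    HasBow G m n := by
  subst hm hn
  obtain ⟨i, h1, h2⟩ := ((closed_of_ln hy ha hb).and (closed_of_ln hy hc hd)).exists
  exact bow_of_lk_seg h1 (h2 ∅)

section lengths

variable {m n : ℕ} (h6m : 6 ∣ m) (h6n : 6 ∣ n) (hm : 12 ≤ m) (hn : 12 ≤ n)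

include h6m h6n hm hn

theorem bow_of_ln2 {y : ℕ → V} (hyi : GenLink.Inf y) (h : Ln G y 2) : HasBow G m n :=
  bow_of_ln hyi h (Ln.mul hyi h.st h ((m - 4) / 2)) h (Ln.mul hyi h.st h ((n - 4) / 2))
    (by omega) (by omega)

theorem bow_of_ln4_st2 {y : ℕ → V} (hyi : GenLink.Inf y) (h : Ln G y 4) (h' : St G y y 2) :
    HasBow G m n :=
  bow_of_ln hyi h (Ln.mul hyi h' h ((m - 8) / 2)) h (Ln.mul hyi h' h ((n - 8) / 2))
    (by omega) (by omega)

theorem bow_of_ln4_st3 {y : ℕ → V} (hyi : GenLink.Inf y) (h : Ln G y 4) (h' : St G y y 3) :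
    HasBow G m n :=
  bow_of_ln hyi h (Ln.mul hyi h' (Ln.mul hyi h.st h 1) ((m - 12) / 3)) h
    (Ln.mul hyi h' (Ln.mul hyi h.st h 1) ((n - 12) / 3)) (by omega) (by omega)

theorem bow_of_ln6_st3 {y : ℕ → V} (hyi : GenLink.Inf y) (h : Ln G y 6) (h' : St G y y 3) :
    HasBow G m n :=
  bow_of_ln hyi h (Ln.mul hyi h' h ((m - 12) / 3)) h (Ln.mul hyi h' h ((n - 12) / 3))
    (by omega) (by omega)

/-- a family without a hub gives the bow -/
theorem bow_of_nonHub {y : ℕ → V} (hd : Dist3 G) (hyi : GenLink.Inf y) (hy : NonHub G y) :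
    HasBow G m n := by
  rcases connect (x := y) hd hy hyi with ⟨c, hg⟩ | ⟨hcn, u, v, hg, hu | ⟨W, hW, hg2⟩⟩
  · rcases eqv_or_nev c with he | he
    · exact bow_of_ln2 h6m h6n hm hn hyi (gen2_ln2 hy hg he)
    · exact bow_of_ln4_st2 h6m h6n hm hn hyi (gen2_ln4 hy hyi hg he) (gen2_st hy hg)
  · have hst := gen3_st hy hg hu
    rcases eqv_or_nev u with he | he
    · exact bow_of_ln2 h6m h6n hm hn hyi (gen3_ln2 hg hu he)
    · rcases eqv_or_nev v with hv | hv
      · exact bow_of_ln4_st3 h6m h6n hm hn hyi (gen3_ln4 hy hg hu he hv) hst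
      · exact bow_of_ln6_st3 h6m h6n hm hn hyi (gen3_ln6 hy hyi hcn hg hu he hv) hst
  · have hWi : GenLink.Inf W := by
      intro F
      filter_upwards [hW, hy.fin F] with k hk hk' hmem
      exact hk' _ hmem hk.symm
    rcases eqv_or_nev v with he | he
    · exact bow_of_ln2 h6m h6n hm hn hWi (gen2_ln2 hy hg2 he)
    · refine bow_of_ln4_st3 h6m h6n hm hn hWi (gen2_ln4 hy hyi hg2 he) ?_
      filter_upwards [hg2, gen2_mem hy hg2, he.ne W] with i hi hi' hi'' F
      classical
      filter_upwards [hi, hi' F, hi'', hyi (insert (W i) F), hW] with k k1 k2 k3 k4 k5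
      simp only [Finset.mem_insert, not_or] at k4
      refine ⟨[v i k, y k], isLink_three k1.1 k1.2 k5 (Ne.symm k4.1) (Ne.symm k3), ?_⟩
      simp [k2, k4.2]

end lengths

/-! ### All positions have hubs -/

theorem two_val {α : Type*} {a b x y w : α} (hx : x = a ∨ x = b) (hy : y = a ∨ y = b)
    (hw : w = a ∨ w = b) (h1 : y ≠ x) (h2 : w ≠ y) : w = x := by
  rcases hx with rfl | rfl <;> rcases hy with rfl | rfl <;> rcases hw with rfl | rfl <;>
    first
      | rfl
      | exact absurd rfl h1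
      | exact absurd rfl h2

/-- a two-valued sequence without repetitions at distances `D` and `E` of different 2-adic
valuations does not exist -/
theorem no_two {α : Type*} {z : ℕ → α} {a b : α} (two : ∀ i, z i = a ∨ z i = b) {D E : ℕ}
    (hD : ∀ i, z (i + D) ≠ z i) (hE : ∀ i, z (i + E) ≠ z i) {p q s t : ℕ}
    (hDs : D = 2 ^ p * s) (hEt : E = 2 ^ q * t) (hs : s % 2 = 1) (_ht : t % 2 = 1)
    (hpq : p < q) : False := by
  have per : ∀ C, (∀ i, z (i + C) ≠ z i) → ∀ k i, z (i + 2 * k * C) = z i := by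
    intro C hC k
    induction k with
    | zero => intro i; simp
    | succ k ih =>
      intro i
      have h1 := ih (i + C + C)
      have h2 : z (i + C + C) = z i := two_val (two i) (two (i + C)) (two (i + C + C)) (hC i)
        (hC (i + C))
      rw [show i + 2 * (k + 1) * C = i + C + C + 2 * k * C by ring, h1, h2]
  obtain ⟨r, rfl⟩ : ∃ r, q = p + 1 + r := ⟨q - (p + 1), by omega⟩
  obtain ⟨s', rfl⟩ : ∃ s', s = 2 * s' + 1 := ⟨s / 2, by omega⟩
  have e1 := per D hD (2 ^ r * t) 0
  have e2 := per E hE s' (0 + E)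
  have e3 := hE 0
  rw [← e2] at e3
  apply e3
  rw [← e1]
  congr 1
  rw [hDs, hEt]
  ring

/-- the abstract combinatorics of the hubs -/
theorem hubs_bow {z : ℕ → V} {t t' : ℕ} (ht : 0 < t) (ht' : 0 < t')
    (hz : ∀ a b, a ≤ b → Lk G (z a) (z b) (b - a + 2)) {p q r s : ℕ}
    (hp : 2 * t + 2 = 2 ^ p * r) (hq : 2 * t' + 2 = 2 ^ q * s) (hr : r % 2 = 1) (hs : s % 2 = 1)
    (hpq : p ≠ q) :
    HasBow G (2 * t + 4) (2 * t' + 4) := by
  classical
  by_contra hno
  -- links between positions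
  have hl : ∀ a b ℓ, (a + ℓ = b ∨ b + ℓ = a) → Lk G (z a) (z b) (ℓ + 2) := by
    rintro a b ℓ (h | h)
    · have := hz a b (by omega)
      rwa [show b - a = ℓ by omega] at this
    · have := (hz b a (by omega)).symm
      rwa [show a - b = ℓ by omega] at this
  have hcl : ∀ {h j : V} {m n : ℕ}, h ≠ j → Lk G h j m → Lk G h j n →
      Cl G h j (m + n) ∧ Cl G j h (m + n) := by
    intro h j m n hne h1 h2
    exact ⟨cl_of_lk hne h1 h2, cl_of_lk (Ne.symm hne) h1.symm h2.symm⟩
  have hpos : ∀ (n a b c d ℓ ℓ' : ℕ), (a + ℓ = b ∨ b + ℓ = a) → (c + ℓ' = d ∨ d + ℓ' = c) →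
      z a = z c → z b = z d → z a ≠ z b → ℓ + ℓ' + 4 = n →
      z a ≠ z b ∧ Cl G (z a) (z b) n ∧ Cl G (z b) (z a) n := by
    intro n a b c d ℓ ℓ' h1 h2 h3 h4 h5 h6
    have k1 := hl a b ℓ h1
    have k2 := hl c d ℓ' h2
    rw [← h3, ← h4] at k2
    have k3 := hcl h5 k1 k2
    rw [show ℓ + 2 + (ℓ' + 2) = n by omega] at k3
    exact ⟨h5, k3⟩
  -- existence of partners
  have key : ∀ (n t : ℕ), 0 < t → n = 2 * t + 4 →
      ∀ i, (∃ k, z i ≠ z k ∧ Cl G (z i) (z k) n ∧ Cl G (z k) (z i) n) ∨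
        ∀ u, z (i + u) = z i := by
    intro n t ht hn i
    by_cases hex : ∃ k, z i ≠ z k ∧ Cl G (z i) (z k) n ∧ Cl G (z k) (z i) n
    · exact Or.inl hex
    · right
      push Not at hex
      have hs : ∀ p, z p = z i → z (p + 1) = z i := by
        intro p hp
        by_contra hne
        have e1 : z (p + t) = z i := by
          by_contra h
          have h1 := hpos n p (p + t) p (p + t) t t (Or.inl rfl) (Or.inl rfl) rfl rfl
            (by rw [hp]; exact Ne.symm h) (by omega)
          rw [hp] at h1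
          exact hex _ h1.1 h1.2.1 h1.2.2
        have e2 : z (p + t + t) = z i := by
          by_contra h
          have h1 := hpos n (p + t) (p + t + t) (p + t) (p + t + t) t t (Or.inl rfl)
            (Or.inl rfl) rfl rfl (by rw [e1]; exact Ne.symm h) (by omega)
          rw [e1] at h1
          exact hex _ h1.1 h1.2.1 h1.2.2
        have h1 := hpos n p (p + 1) (p + t + t) (p + 1) 1 (2 * t - 1) (Or.inl rfl)
          (Or.inr (by omega)) (by rw [e2, hp]) rfl (by rw [hp]; exact Ne.symm hne) (by omega)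
        rw [hp] at h1
        exact hex _ h1.1 h1.2.1 h1.2.2
      intro u
      induction u with
      | zero => rfl
      | succ u ih => exact hs _ ih
  -- no constant tails
  have hself : ∀ i n, z (i + n) = z i → Lk G (z i) (z i) (n + 2) := by
    intro i n h
    have := hl i (i + n) n (Or.inl rfl)
    rwa [h] at this
  have hconst : ∀ i, ¬ ∀ u, z (i + u) = z i := by
    intro i hall
    exact hno (bow_of_lk_seg (hself i (2 * t + 2) (hall _)) (hself i (2 * t' + 2) (hall _) ∅))
  have exP := fun i => (key (2 * t + 4) t ht rfl i).resolve_right (hconst i)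
  have exQ := fun i => (key (2 * t' + 4) t' ht' rfl i).resolve_right (hconst i)
  have notm : ∀ i, ¬ Lk G (z i) (z i) (2 * t + 4) := by
    intro i h
    obtain ⟨k, hk0, hk, -⟩ := exQ i
    exact hno (bow_of_lk_seg h (hk ∅ (by simp)))
  have notn : ∀ i, ¬ Lk G (z i) (z i) (2 * t' + 4) := by
    intro i h
    obtain ⟨k, hk0, hk, -⟩ := exP i
    exact hno (bow_of_lk_seg h (hk ∅ (by simp))).symm
  have nem : ∀ i, z (i + (2 * t + 2)) ≠ z i := fun i h => notm i (hself i _ h)
  have nen : ∀ i, z (i + (2 * t' + 2)) ≠ z i := fun i h => notn i (hself i _ h)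
  -- uniqueness of partners
  have huniq : ∀ h j j', Cl G h j (2 * t + 4) → Cl G h j' (2 * t' + 4) → j = j' := by
    intro h j j' h1 h2
    by_contra hne
    exact hno (bow_of_cl_cl hne h1 h2)
  have hpart : ∀ i, ∃ k, (z i ≠ z k ∧ Cl G (z i) (z k) (2 * t + 4) ∧
      Cl G (z k) (z i) (2 * t + 4)) ∧ ∀ w, Cl G (z i) w (2 * t + 4) → w = z k := by
    intro i
    obtain ⟨k, hk⟩ := exP i
    obtain ⟨l, hl⟩ := exQ i
    refine ⟨k, hk, fun w hw => ?_⟩
    rw [huniq _ _ _ hw hl.2.1, huniq _ _ _ hk.2.1 hl.2.1]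
  choose π hπ hπu using hpart
  -- the pairs
  set S : ℕ → Set V := fun i => {z i, z (π i)} with hS
  have hmem : ∀ i j, z j ∈ S i ↔ z j = z i ∨ z j = z (π i) := fun i j => Iff.rfl
  have hSself : ∀ i, z i ∈ S i := fun i => Or.inl rfl
  have hSeq : ∀ i j, z j ∈ S i → S j = S i := by
    intro i j hj
    rcases (hmem i j).1 hj with h | h
    · have h1 : z (π j) = z (π i) := by
        apply hπu
        rw [← h]
        exact (hπ j).2.1
      simp only [hS, h, h1]
    · have h1 : z i = z (π j) := by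
        apply hπu
        rw [h]
        exact (hπ i).2.2
      simp only [hS, h, ← h1]
      exact Set.pair_comm _ _
  have hScl : ∀ i j, Cl G (z i) (z j) (2 * t + 4) → z j ∈ S i := fun i j h => Or.inr (hπu i _ h)
  have hstep : ∀ i, S (i + t) = S i := by
    intro i
    apply hSeq
    by_cases h : z (i + t) = z i
    · exact Or.inl h
    · exact hScl _ _ (hpos (2 * t + 4) i (i + t) i (i + t) t t (Or.inl rfl) (Or.inl rfl) rfl rfl
        (Ne.symm h) (by omega)).2.1
  have hsteps : ∀ k i, S (i + k * t) = S i := by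
    intro k
    induction k with
    | zero => intro i; simp
    | succ k ih =>
      intro i
      rw [show i + (k + 1) * t = i + k * t + t by ring, hstep, ih]
  -- all pairs agree
  have hall : ∀ a b, S a = S b := by
    by_contra hcon
    push Not at hcon
    obtain ⟨a, b, hab⟩ := hcon
    have hsep : ∀ i, ∃ ρ, 0 < ρ ∧ ρ < t ∧ S (i + ρ) ≠ S i := by
      intro i
      obtain ⟨c, hc⟩ : ∃ c, S c ≠ S i := by
        by_cases h : S a = S i
        · exact ⟨b, fun h' => hab (h.trans h'.symm)⟩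
        · exact ⟨a, h⟩
      have hle : i ≤ c + i * t := le_trans (Nat.le_mul_of_pos_right i ht) (Nat.le_add_left _ _)
      have h1 : S (i + (c + i * t - i) % t) = S c := by
        rw [← hsteps i c, ← hsteps ((c + i * t - i) / t) (i + (c + i * t - i) % t)]
        congr 1
        have := Nat.mod_add_div' (c + i * t - i) t
        omega
      refine ⟨(c + i * t - i) % t, ?_, Nat.mod_lt _ ht, by rw [h1]; exact hc⟩
      rcases Nat.eq_zero_or_pos ((c + i * t - i) % t) with h0 | h0
      · rw [h0, add_zero] at h1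
        exact absurd h1.symm hc
      · exact h0
    have hne2 : ∀ i, z (i + t + t) ≠ z i := by
      intro i h
      obtain ⟨ρ, h0, h1, h2⟩ := hsep i
      have hne : z i ≠ z (i + ρ) := fun h' => h2 (hSeq _ _ (Or.inl h'.symm))
      have h3 := hpos (2 * t + 4) i (i + ρ) (i + t + t) (i + ρ) ρ (2 * t - ρ) (Or.inl rfl)
        (Or.inr (by omega)) h.symm rfl hne (by omega)
      exact h2 (hSeq _ _ (hScl _ _ h3.2.1))
    -- the values at `i`, `i + t`, `i + 2t` when the first two differ
    have hpair : ∀ i, z (i + t) ≠ z i → z (i + t + t) = z (i + t) := by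
      intro i h
      have m1 : z (i + t) ∈ S i := by rw [← hstep i]; exact hSself _
      have m2 : z (i + t + t) ∈ S i := by
        rw [← hstep i, ← hstep (i + t)]; exact hSself _
      rcases (hmem i (i + t)).1 m1 with h1 | h1
      · exact absurd h1 h
      rcases (hmem i (i + t + t)).1 m2 with h2 | h2
      · exact absurd h2 (hne2 i)
      rw [h1, h2]
    obtain ⟨i₀, hi₀⟩ : ∃ i, z (i + t) = z i := by
      by_cases h : z (0 + t) = z 0
      · exact ⟨0, h⟩
      · exact ⟨0 + t, hpair 0 h⟩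
    obtain ⟨ρ, h0, h1, h2⟩ := hsep i₀
    have hSr : ∀ j, S j = S (i₀ + ρ) → ∀ i, S i = S i₀ → z i ≠ z j ∧ z j ∉ S i := by
      intro j hj i hi
      have hnm : z j ∉ S i := by
        intro hm
        have := hSeq _ _ hm
        rw [hj, hi] at this
        exact h2 this
      exact ⟨fun h => hnm (Or.inl h.symm), hnm⟩
    by_cases hc : z (i₀ + ρ + t) = z (i₀ + ρ)
    · have h3 := hSr (i₀ + ρ + t) (hstep _) i₀ rfl
      have h4 := hpos (2 * t + 4) i₀ (i₀ + ρ + t) (i₀ + t) (i₀ + ρ) (ρ + t) (t - ρ)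
        (Or.inl (by omega)) (Or.inr (by omega)) hi₀.symm hc h3.1 (by omega)
      exact h3.2 (hScl _ _ h4.2.1)
    · have h5 := hpair _ hc
      -- the values at `i₀ + 2t` and `i₀ + 3t` agree
      have m2 : z (i₀ + t + t) ∈ S i₀ := by
        rw [← hstep i₀, ← hstep (i₀ + t)]; exact hSself _
      have m3 : z (i₀ + t + t + t) ∈ S i₀ := by
        rw [← hstep i₀, ← hstep (i₀ + t), ← hstep (i₀ + t + t)]; exact hSself _
      have n2 : z (i₀ + t + t) ≠ z i₀ := hne2 _
      have n3 : z (i₀ + t + t + t) ≠ z i₀ := by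
        have := hne2 (i₀ + t)
        rwa [hi₀] at this
      have h6 : z (i₀ + t + t + t) = z (i₀ + t + t) := by
        rcases (hmem _ _).1 m2 with k2 | k2
        · exact absurd k2 n2
        rcases (hmem _ _).1 m3 with k3 | k3
        · exact absurd k3 n3
        rw [k2, k3]
      have h7 := hSr (i₀ + ρ + t) (hstep _) (i₀ + t + t + t) (by rw [hstep, hstep, hstep])
      have h8 := hpos (2 * t + 4) (i₀ + t + t + t) (i₀ + ρ + t) (i₀ + t + t) (i₀ + ρ + t + t)
        (2 * t - ρ) ρ (Or.inr (by omega)) (Or.inl (by omega)) h6 h5.symm h7.1 (by omega)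
      exact h7.2 (hScl _ _ h8.2.1)
  have two : ∀ i, z i = z 0 ∨ z i = z (π 0) := by
    intro i
    have := hSself i
    rw [hall i 0] at this
    exact this
  rcases lt_or_gt_of_ne hpq with h | h
  · exact no_two two nem nen hp hq hr hs h
  · exact no_two two nen nem hq hp hs hr h

/-- the main theorem for infinite graphs -/
theorem bow_of_ray {m n : ℕ} (h6m : 6 ∣ m) (h6n : 6 ∣ n) (hm : 12 ≤ m) (hn : 12 ≤ n)
    {p q r s : ℕ} (hp : m = 2 ^ p * r + 2) (hq : n = 2 ^ q * s + 2) (hr : r % 2 = 1)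
    (hs : s % 2 = 1) (hpq : p ≠ q) {f : ℕ → V} (hf : Function.Injective f)
    (hadj : ∀ n, G.Adj (f n) (f (n + 1))) (hd : Dist3 G) : HasBow G m n := by
  by_cases h : ∀ a, ∃ z, Hub G f a z
  · choose z hz using h
    have h1 := hubs_bow (G := G) (z := z) (t := m / 2 - 2) (t' := n / 2 - 2) (by omega) (by omega)
      (fun a b hab => hub_hub hf hadj hab (hz a) (hz b)) (p := p) (q := q) (r := r) (s := s)
      (by omega) (by omega) hr hs hpq
    rwa [show 2 * (m / 2 - 2) + 4 = m by omega, show 2 * (n / 2 - 2) + 4 = n by omega] at h1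
  · push Not at h
    obtain ⟨a, ha⟩ := h
    exact bow_of_nonHub h6m h6n hm hn hd (pos_inf hf a)
      ((hub_or f a).resolve_left (fun ⟨z, hz⟩ => ha z hz))

end Pool.Agent.KS41TD.GenLink
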