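import Pool.Agent.KS6_41.TD.Bow
import Pool.Agent.KS6_41.TD.HubC

/-! The graph consisting of two cycles with exactly one common vertex. -/

set_option autoImplicit false

namespace Pool.Agent.KS41TD

open Filter GenLink

universe u

/-- The graph on `0, …, m + n - 2` consisting of the cycle `0, 1, …, m - 1` of length `m` and the
cycle `0, m, m + 1, …, m + n - 2` of length `n`. -/
def bow (m n : ℕ) : SimpleGraph (Fin (m + n - 1)) :=
  SimpleGraph.fromRel (fun i j =>
    (i.val + 1 = j.val ∧ i.val + 1 ≠ m) ∨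
      (i.val = 0 ∧ (j.val + 1 = m ∨ j.val = m ∨ j.val + 2 = m + n)))

theorem bow_contained {V : Type u} {G : SimpleGraph V} {m n : ℕ} (hm : 3 ≤ m) (hn : 3 ≤ n)
    (h : HasBow G m n) : (bow m n).IsContained G := by
  obtain ⟨m, rfl⟩ : ∃ m', m = m' + 1 := ⟨m - 1, by omega⟩
  obtain ⟨n, rfl⟩ : ∃ n', n = n' + 1 := ⟨n - 1, by omega⟩
  obtain ⟨v, I, J, ⟨h1, h2, h3, -, h5⟩, ⟨k1, k2, k3, -, k5⟩, hIJ⟩ := h
  have hI : I.length = m := by omega
  have hJ : J.length = n := by omega
  set L := v :: (I ++ J) with hL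
  have hLl : L.length = m + n + 1 := by simp [hL, hI, hJ]
  have hnd : L.Nodup := by
    rw [hL, List.nodup_cons, List.nodup_append]
    refine ⟨by simp [h3, k3], h2, k2, ?_⟩
    intro a ha b hb hab
    exact hIJ a ha (hab ▸ hb)
  let φ : Fin (m + 1 + (n + 1) - 1) → V := fun i => L[i.val]'(by rw [hLl]; omega)
  have hinj : Function.Injective φ := by
    intro i j hij
    exact Fin.ext ((List.Nodup.getElem_inj_iff hnd).1 hij)
  rw [List.isChain_iff_getElem] at h5 k5
  have g1 : ∀ i : ℕ, (hi : i < m + 1) → (v :: (I ++ [v]))[i]'(by simp; omega) =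
      L[i]'(by omega) := by
    intro i hi
    rcases i with _ | i
    · rfl
    · simp only [hL, List.getElem_cons_succ]
      rw [List.getElem_append_left (by omega), List.getElem_append_left (by omega)]
  have g2 : ∀ i : ℕ, (hi : i < n) → (v :: (J ++ [v]))[i + 1]'(by simp; omega) =
      L[i + (m + 1)]'(by omega) := by
    intro i hi
    simp only [hL, List.getElem_cons_succ, show i + (m + 1) = (i + m) + 1 by rfl]
    rw [List.getElem_append_left (by omega), List.getElem_append_right (by omega)]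
    congr 1
    omega
  have g3 : (v :: (I ++ [v]))[m + 1]'(by simp; omega) = L[0]'(by omega) := by
    simp only [hL, List.getElem_cons_succ, List.getElem_cons_zero]
    rw [List.getElem_append_right (by omega)]
    simp [hI]
  have g4 : (v :: (J ++ [v]))[n + 1]'(by simp; omega) = L[0]'(by omega) := by
    simp only [hL, List.getElem_cons_succ, List.getElem_cons_zero]
    rw [List.getElem_append_right (by omega)]
    simp [hJ]
  have g5 : (v :: (J ++ [v]))[0]'(by simp) = L[0]'(by omega) := rfl
  have a1 : ∀ i, (hi : i < m) → G.Adj (L[i]'(by omega)) (L[i + 1]'(by omega)) := by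
    intro i hi
    have := h5 i (by simp; omega)
    rwa [g1 i (by omega), g1 (i + 1) (by omega)] at this
  have a2 : ∀ i, m + 1 ≤ i → (hi : i < m + n) → G.Adj (L[i]'(by omega)) (L[i + 1]'(by omega)) := by
    intro i hi0 hi
    obtain ⟨j, rfl⟩ : ∃ j, i = j + (m + 1) := ⟨i - (m + 1), by omega⟩
    have := k5 (j + 1) (by simp; omega)
    rw [g2 j (by omega), g2 (j + 1) (by omega)] at this
    have e : L[j + 1 + (m + 1)]'(by omega) = L[j + (m + 1) + 1]'(by omega) := by
      congr 1
      omega
    rwa [e] at this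
  have a3 : G.Adj (L[0]'(by omega)) (L[m]'(by omega)) := by
    have := h5 m (by simp; omega)
    rw [g1 m (by omega), g3] at this
    exact this.symm
  have a4 : G.Adj (L[0]'(by omega)) (L[m + 1]'(by omega)) := by
    have := k5 0 (by simp)
    rw [g5, g2 0 (by omega)] at this
    have e : L[0 + (m + 1)]'(by omega) = L[m + 1]'(by omega) := by
      congr 1
      omega
    rwa [e] at this
  have a5 : G.Adj (L[0]'(by omega)) (L[m + n]'(by omega)) := by
    obtain ⟨n, rfl⟩ : ∃ n', n = n' + 1 := ⟨n - 1, by omega⟩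
    have := k5 (n + 1) (by simp; omega)
    rw [g2 n (by omega), g4] at this
    have e : L[n + (m + 1)]'(by omega) = L[m + (n + 1)]'(by omega) := by
      congr 1
      omega
    rw [e] at this
    exact this.symm
  have hdir : ∀ i j : Fin (m + 1 + (n + 1) - 1), ((i.val + 1 = j.val ∧ i.val + 1 ≠ m + 1) ∨
      (i.val = 0 ∧ (j.val + 1 = m + 1 ∨ j.val = m + 1 ∨ j.val + 2 = m + 1 + (n + 1)))) →
      G.Adj (φ i) (φ j) := by
    rintro ⟨i, hi⟩ ⟨j, hj⟩ h
    simp only at h
    rcases h with ⟨h, h'⟩ | ⟨h, h' | h' | h'⟩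
    · subst h
      by_cases h' : i < m
      · exact a1 i h'
      · exact a2 i (by omega) (by omega)
    · obtain rfl : j = m := by omega
      subst h
      exact a3
    · subst h h'
      exact a4
    · obtain rfl : j = m + n := by omega
      subst h
      exact a5
  refine ⟨⟨⟨φ, ?_⟩, hinj⟩⟩
  intro i j hij
  rw [bow, SimpleGraph.fromRel_adj] at hij
  rcases hij.2 with h | h
  · exact hdir i j h
  · exact (hdir j i h).symm

/-! ### The two cycles -/

/-- The subgraph `H` is a cycle. -/
def IsCycleSub {W : Type*} {F : SimpleGraph W} (H : F.Subgraph) : Prop :=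
  ∃ m : ℕ, 3 ≤ m ∧ Nonempty (SimpleGraph.cycleGraph m ≃g H.coe)

/-- `F` contains two distinct cycles as subgraphs. -/
def HasTwoCycles {W : Type*} (F : SimpleGraph W) : Prop :=
  ∃ H₁ H₂ : F.Subgraph, H₁ ≠ H₂ ∧ IsCycleSub H₁ ∧ IsCycleSub H₂

theorem cycle_adj {n : ℕ} {u v : Fin n} (h : (SimpleGraph.cycleGraph n).Adj u v) :
    u.val + 1 = v.val ∨ v.val + 1 = u.val ∨ (u.val = 0 ∧ v.val + 1 = n) ∨
      (v.val = 0 ∧ u.val + 1 = n) := by
  have hne : u.val ≠ v.val := fun e => h.ne (Fin.ext e)
  rw [SimpleGraph.cycleGraph_adj'] at h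
  have hu := u.isLt
  have hv := v.isLt
  rcases lt_or_gt_of_ne hne with hlt | hlt
  · have e1 := Fin.coe_sub_iff_lt.2 (show u < v from hlt)
    have e2 := Fin.coe_sub_iff_le.2 (show u ≤ v from hlt.le)
    rcases h with h | h <;> omega
  · have e1 := Fin.coe_sub_iff_lt.2 (show v < u from hlt)
    have e2 := Fin.coe_sub_iff_le.2 (show v ≤ u from hlt.le)
    rcases h with h | h <;> omega

theorem bow_adj {m n : ℕ} (i j : Fin (m + n - 1)) : (bow m n).Adj i j ↔ i ≠ j ∧
    (((i.val + 1 = j.val ∧ i.val + 1 ≠ m) ∨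
      (i.val = 0 ∧ (j.val + 1 = m ∨ j.val = m ∨ j.val + 2 = m + n))) ∨
    ((j.val + 1 = i.val ∧ j.val + 1 ≠ m) ∨
      (j.val = 0 ∧ (i.val + 1 = m ∨ i.val = m ∨ i.val + 2 = m + n)))) := by
  rw [bow, SimpleGraph.fromRel_adj]

/-- the first cycle -/
def cyc1 (m n : ℕ) (hn : 3 ≤ n) : SimpleGraph.Copy (SimpleGraph.cycleGraph m) (bow m n) where
  toHom := ⟨fun i => ⟨i.val, by omega⟩, by
    intro a b hab
    have h1 := cycle_adj hab
    have ha := a.isLt
    have hb := b.isLt
    have hne : a.val ≠ b.val := fun e => hab.ne (Fin.ext e)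
    rw [bow_adj]
    refine ⟨fun e => hne (by simpa [Fin.ext_iff] using e), ?_⟩
    simp only
    omega⟩
  injective' := by
    intro a b h
    have := congrArg Fin.val h
    exact Fin.ext this

/-- the second cycle -/
def cyc2 (m n : ℕ) (hm : 3 ≤ m) : SimpleGraph.Copy (SimpleGraph.cycleGraph n) (bow m n) where
  toHom := ⟨fun i => ⟨if i.val = 0 then 0 else i.val + m - 1, by split_ifs <;> omega⟩, by
    intro a b hab
    have h1 := cycle_adj hab
    have ha := a.isLt
    have hb := b.isLt
    have hne : a.val ≠ b.val := fun e => hab.ne (Fin.ext e)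
    rw [bow_adj]
    refine ⟨fun e => ?_, ?_⟩
    · have := congrArg Fin.val e
      simp only at this
      split_ifs at this <;> omega
    · simp only
      split_ifs <;> omega⟩
  injective' := by
    intro a b h
    have := congrArg Fin.val h
    change (if a.val = 0 then 0 else a.val + m - 1) = (if b.val = 0 then 0 else b.val + m - 1)
      at this
    apply Fin.ext
    split_ifs at this <;> omega

theorem bow_hasTwoCycles {m n : ℕ} (hm : 3 ≤ m) (hn : 3 ≤ n) : HasTwoCycles (bow m n) := by
  refine ⟨(cyc1 m n hn).toSubgraph, (cyc2 m n hm).toSubgraph, ?_,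
    ⟨m, hm, ⟨(cyc1 m n hn).isoToSubgraph⟩⟩, ⟨n, hn, ⟨(cyc2 m n hm).isoToSubgraph⟩⟩⟩
  intro h
  have h1 : (⟨m, by omega⟩ : Fin (m + n - 1)) ∈ (cyc2 m n hm).toSubgraph.verts := by
    simp only [SimpleGraph.Copy.toSubgraph, SimpleGraph.Subgraph.map_verts]
    refine ⟨⟨1, by omega⟩, trivial, ?_⟩
    apply Fin.ext
    change (if (1 : ℕ) = 0 then 0 else 1 + m - 1) = m
    rw [if_neg (by omega)]
    omega
  rw [← h] at h1
  simp only [SimpleGraph.Copy.toSubgraph, SimpleGraph.Subgraph.map_verts] at h1
  obtain ⟨i, -, hi⟩ := h1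
  have h2 : i.val = m := congrArg Fin.val hi
  have := i.isLt
  omega

/-! ### Boundedness of treedepth -/

/-- the graphs of diameter at most `3` without a subgraph isomorphic to `F` have bounded
treedepth -/
def Bounded {W : Type} (F : SimpleGraph W) : Prop :=
  ∃ k : ℕ, ∀ (V : Type) [Finite V] (G : SimpleGraph V),
    G.ediam ≤ 3 → F.Free G → TreedepthLE G k

theorem bounded_bow {m n : ℕ} (h6m : 6 ∣ m) (h6n : 6 ∣ n) (hm : 12 ≤ m) (hn : 12 ≤ n)
    {p q r s : ℕ} (hp : m = 2 ^ p * r + 2) (hq : n = 2 ^ q * s + 2) (hr : r % 2 = 1)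
    (hs : s % 2 = 1) (hpq : p ≠ q) : Bounded (bow m n) := by
  by_contra hcon
  unfold Bounded at hcon
  push Not at hcon
  choose V hfin G hdiam hfree htd using hcon
  have hpath := fun n => @TDepth.exists_path (V n) (G n) (hfin n) n (htd n)
  choose f hf1 hf2 using hpath
  let F : ℕ → Quotient (us V) := fun k => Quotient.mk (us V) (fun n => f n k)
  have hlarge : ∀ N : ℕ, ∀ᶠ n in (U : Filter ℕ), N < n := by
    intro N
    apply Filter.hyperfilter_le_cofinite
    rw [Filter.mem_cofinite]
    apply (Set.finite_Iic N).subset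
    intro n hn
    simpa using hn
  have hFinj : Function.Injective F := by
    intro i j hij
    have h1 : ∀ᶠ n in (U : Filter ℕ), f n i = f n j := Quotient.exact hij
    obtain ⟨n, h2, h3, h4⟩ := (h1.and ((hlarge i).and (hlarge j))).exists
    exact hf1 n i h3.le j h4.le h2
  have hFadj : ∀ k, (ug G).Adj (F k) (F (k + 1)) := by
    intro k
    rw [ug_adj]
    exact (hlarge k).mono (fun n hn => hf2 n k hn)
  have hd : Dist3 (ug G) := ug_dist3 (fun n => dist3_of_ediam (hdiam n))
  obtain ⟨m', hm'⟩ := contained_of_ug (bow_contained (by omega) (by omega)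
    (bow_of_ray h6m h6n hm hn hp hq hr hs hpq hFinj hFadj hd))
  exact (not_isEmpty_iff.2 hm') (hfree m')

/-! ### Comparison of the two definitions of treedepth -/

theorem level_pos {V : Type} (T : RootedForest V) (v : V) : 1 ≤ T.level v := by
  rcases h : T.parent v with _ | w
  · rw [T.level_root v h]
  · rw [T.level_child v w h]
    omega

theorem anc_level {V : Type} (T : RootedForest V) {a v : V} (h : T.Anc a v) :
    T.level a ≤ T.level v ∧ (T.level a = T.level v → a = v) := by
  unfold RootedForest.Anc at h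
  induction h using Relation.ReflTransGen.head_induction_on with
  | refl => exact ⟨le_rfl, fun _ => rfl⟩
  | head h _ ih =>
    have := T.level_child _ _ h
    exact ⟨by omega, fun e => by omega⟩

theorem anc_total {V : Type} (T : RootedForest V) {u v w : V} (h : T.Anc u w) (h' : T.Anc v w) :
    T.Anc u v ∨ T.Anc v u := by
  have hU : Relator.RightUnique (fun x y => T.parent x = some y) := by
    intro a b c hb hc
    rw [hb] at hc
    exact Option.some_injective _ hc
  rcases Relation.ReflTransGen.total_of_right_unique hU h h' with k | k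
  · exact Or.inr k
  · exact Or.inl k

theorem hub_treedepth {V : Type} {G : SimpleGraph V} {k : ℕ} (h : TreedepthLE G k) :
    Hub.TreedepthLE G k := by
  classical
  obtain ⟨T, h1, h2⟩ := h
  refine ⟨fun u v => T.Anc u v, fun v => Relation.ReflTransGen.refl, ?_, ?_, ?_, ?_, h2⟩
  · intro u v h h'
    exact (anc_level T h).2 (le_antisymm (anc_level T h).1 (anc_level T h').1)
  · intro u v w h h'
    exact Relation.ReflTransGen.trans h' h
  · intro u v w h h'
    exact anc_total T h h'
  · intro v s hs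
    have h3 : s.card ≤ (Finset.Icc 1 k).card := by
      apply Finset.card_le_card_of_injOn T.level
      · intro u hu
        rw [Finset.mem_coe, Finset.mem_Icc]
        exact ⟨level_pos T u, h1 u⟩
      · intro a ha b hb hab
        rcases anc_total T (hs a ha) (hs b hb) with h | h
        · exact (anc_level T h).2 hab
        · exact ((anc_level T h).2 hab.symm).symm
    simpa using h3

/-! ### Unboundedness -/

/-- the vertices of `bow m n` -/
def vtx (m n : ℕ) (hm : 3 ≤ m) (i : ℕ) : Fin (m + n - 1) :=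
  if h : i < m + n - 1 then ⟨i, h⟩ else ⟨0, by omega⟩

theorem vtx_val {m n : ℕ} (hm : 3 ≤ m) {i : ℕ} (h : i < m + n - 1) : (vtx m n hm i).val = i := by
  unfold vtx
  rw [dif_pos h]

theorem succ_mod {a i : ℕ} (h : i < a) : (i + 1 < a ∧ (i + 1) % a = i + 1) ∨
    (i + 1 = a ∧ (i + 1) % a = 0) := by
  rcases Nat.lt_or_ge (i + 1) a with h' | h'
  · exact Or.inl ⟨h', Nat.mod_eq_of_lt h'⟩
  · have e : i + 1 = a := by omega
    exact Or.inr ⟨e, by rw [e, Nat.mod_self]⟩

theorem isCyc1 {m n : ℕ} (hm : 3 ≤ m) (hn : 3 ≤ n) : Hub.IsCyc (bow m n) m (vtx m n hm) := by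
  refine ⟨?_, ?_⟩
  · intro i hi j hj h
    have := congrArg Fin.val h
    rwa [vtx_val hm (by omega), vtx_val hm (by omega)] at this
  · intro i hi
    rw [bow_adj]
    have e1 := vtx_val (n := n) hm (i := i) (by omega)
    have e2 := vtx_val (n := n) hm (i := (i + 1) % m) (by have := Nat.mod_lt (i + 1) (show 0 < m by omega); omega)
    refine ⟨fun e => ?_, ?_⟩
    · have := congrArg Fin.val e
      rw [e1, e2] at this
      rcases succ_mod hi with h | h <;> omega
    · rw [e1, e2]
      rcases succ_mod hi with h | h <;> omega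

/-- the vertices of the second cycle -/
def vtx2 (m n : ℕ) (hm : 3 ≤ m) (i : ℕ) : Fin (m + n - 1) :=
  vtx m n hm (if i = 0 then 0 else i + m - 1)

theorem vtx2_val {m n : ℕ} (hm : 3 ≤ m) {i : ℕ} (h : i < n) :
    (vtx2 m n hm i).val = if i = 0 then 0 else i + m - 1 := by
  unfold vtx2
  rw [vtx_val]
  split_ifs <;> omega

theorem isCyc2 {m n : ℕ} (hm : 3 ≤ m) (hn : 3 ≤ n) : Hub.IsCyc (bow m n) n (vtx2 m n hm) := by
  refine ⟨?_, ?_⟩
  · intro i hi j hj h
    have := congrArg Fin.val h
    rw [vtx2_val hm hi, vtx2_val hm hj] at this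
    split_ifs at this <;> omega
  · intro i hi
    rw [bow_adj]
    have e1 := vtx2_val (n := n) hm hi
    have e2 := vtx2_val (n := n) hm (Nat.mod_lt (i + 1) (show 0 < n by omega))
    refine ⟨fun e => ?_, ?_⟩
    · have := congrArg Fin.val e
      rw [e1, e2] at this
      rcases succ_mod hi with h | h <;> rw [h.2] at this <;> split_ifs at this <;> omega
    · rw [e1, e2]
      clear e1 e2
      rcases succ_mod hi with ⟨h, h'⟩ | ⟨h, h'⟩
      · rw [h', if_neg (Nat.succ_ne_zero i)]
        by_cases hi0 : i = 0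
        · rw [if_pos hi0]
          omega
        · rw [if_neg hi0]
          omega
      · rw [h', if_pos rfl, if_neg (by omega)]
        omega

theorem unbounded_bow {m n : ℕ} {p r s : ℕ} (hp0 : 1 ≤ p) (hp : m = 2 ^ p * r + 2)
    (hq : n = 2 ^ p * s + 2) (hr : r % 2 = 1) (hs : s % 2 = 1) : ¬ Bounded (bow m n) := by
  rintro ⟨k, hk⟩
  have h2 : 2 ^ p % 2 = 0 := by
    obtain ⟨u, rfl⟩ : ∃ u, p = u + 1 := ⟨p - 1, by omega⟩
    rw [pow_succ]
    omega
  have hL : 2 ≤ 2 ^ p := by
    have : 0 < 2 ^ p := by positivity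
    omega
  have hm : 3 ≤ m := by
    have : 0 < 2 ^ p * r := Nat.mul_pos (by positivity) (by omega)
    omega
  have hn : 3 ≤ n := by
    have : 0 < 2 ^ p * s := Nat.mul_pos (by positivity) (by omega)
    omega
  have hdiam := Hub.hub_diam (N := 2 ^ (k + 1)) hL (by positivity)
  refine Hub.hub_td (L := 2 ^ p) (n := 2 ^ p * 2 ^ (k + 1)) k
    (Nat.le_mul_of_pos_left _ (by omega)) (hub_treedepth (hk _ _ ?_ ?_))
  · apply SimpleGraph.ediam_le_of_edist_le
    intro u v
    obtain ⟨w, hw⟩ := hdiam u v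
    exact le_trans w.edist_le (by exact_mod_cast hw)
  · have h1 := isCyc1 hm hn
    have h3 := isCyc2 hm hn
    have h4 := Hub.hub_free (bow m n) hL h2 hr hs (vtx m n hm) (vtx2 m n hm) (hp ▸ h1) (hq ▸ h3) ?_
      (2 ^ p * 2 ^ (k + 1))
    · rw [SimpleGraph.Free]
      rintro ⟨φ⟩
      exact h4 ⟨φ, φ.injective, fun u v huv => φ.toHom.map_adj huv⟩
    · intro i hi i' hi' j hj j' hj' e e' hne
      exfalso
      rw [← hp] at hi hi'
      rw [← hq] at hj hj'
      apply hne
      have f1 := congrArg Fin.val e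
      have f2 := congrArg Fin.val e'
      rw [vtx_val hm (by omega), vtx2_val hm hj] at f1
      rw [vtx_val hm (by omega), vtx2_val hm hj'] at f2
      have : i = i' := by
        split_ifs at f1 f2 <;> omega
      rw [this]

end Pool.Agent.KS41TD
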