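import Pool.Agent.KS6_41.TD.GenRay

/-! A graph of diameter at most three with a one-way infinite path contains every even cycle of
length at least eight: the case analysis. -/

set_option autoImplicit false

namespace Pool.Agent.KS41TD.GenLink

open Filter

variable {V : Type*} {G : SimpleGraph V}

theorem Rob.ln {y : ℕ → V} (hyi : Inf y) (h : Rob G y) (n : ℕ) (hn : 2 ≤ n) :
    Ln G y (3 * n) := by
  have h1 := Ln.mul hyi h.2.2.1 h.2.2.2.1 (n - 2)
  rwa [show (n - 2) * 3 + 6 = 3 * n by omega] at h1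

section ray

variable {f : ℕ → V} (hf : Function.Injective f) (hadj : ∀ n, G.Adj (f n) (f (n + 1)))
include hf hadj

/-- a closed cycle through one hub and a robust position -/
theorem one_hub {z : V} {p a b n : ℕ} (hpa : p ≤ a) (hpb : p ≤ b) (hz : Hub G f a z)
    (hz' : Hub G f b z) (hp : Rob G (pos f p)) (hn : 2 ≤ n) :
    HasCyc G ((a - p + 1) + 3 * n + (b - p + 1)) := by
  obtain ⟨I, hI, -⟩ := hub_rob_hub hf hadj hpa hpb hz hz' (hp.ln (pos_inf hf p) n hn) ∅
  exact ⟨z, I, hI⟩

/-- two consecutive robust positions -/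
theorem two_rob {p n₁ n₂ : ℕ} (hp : Rob G (pos f p)) (hp' : Rob G (pos f (p + 1)))
    (h1 : 2 ≤ n₁) (h2 : 2 ≤ n₂) : HasCyc G (3 * n₁ + 2 + 3 * n₂) := by
  classical
  obtain ⟨i, hi, hi'⟩ := ((hp.ln (pos_inf hf p) n₁ h1).and
    (hp'.ln (pos_inf hf (p + 1)) n₂ h2)).exists
  obtain ⟨j, hj, hj', hjw⟩ := (hi.and (hi'.and (win_avoid hf (p + 1)
    {f (i + p), f (i + (p + 1))}))).exists
  simp only [Finset.mem_insert, Finset.mem_singleton, not_or] at hjw
  have a1 := hjw p (by omega)
  have a2 := hjw (p + 1) le_rfl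
  have e1 : f (i + p) ≠ f (i + (p + 1)) := fun e => by have := hf e; omega
  have e2 : f (j + p) ≠ f (j + (p + 1)) := fun e => by have := hf e; omega
  obtain ⟨J, hJ, hJF⟩ := hj {f (i + (p + 1)), f (j + (p + 1))}
  have b1 : f (i + (p + 1)) ∉ J := fun h => hJF _ h (by simp)
  have b2 : f (j + (p + 1)) ∉ J := fun h => hJF _ h (by simp)
  have hJ' : IsLink G (f (i + p)) (f (j + p)) (3 * n₁) J := hJ
  have l1 : IsLink G (f (i + (p + 1))) (f (i + p)) 1 [] := isLink_one (hadj (i + p)).symm
  have l2 : IsLink G (f (j + p)) (f (j + (p + 1))) 1 [] := isLink_one (hadj (j + p))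
  have l3 := l1.trans hJ' b1 (by simp) (Ne.symm e1) a1.1 (by simp)
  have l4 := l3.trans l2 (by simp) ?_ (Ne.symm a1.2) (Ne.symm e2) (by simp)
  · have := cyc_of_link_lk (Ne.symm a2.2) l4 hj'
    rwa [show 1 + 3 * n₁ + 1 + 3 * n₂ = 3 * n₁ + 2 + 3 * n₂ by omega] at this
  · simp only [List.nil_append, List.mem_cons, not_or]
    exact ⟨a2.1, b2⟩

/-- the case `r ≡ 2` mod 3 with two consecutive robust positions -/
theorem two_rob' {p n r : ℕ} (hr : 4 ≤ r) (hd : Dist3 G) (hp : Rob G (pos f p))
    (hp' : Rob G (pos f (p + 1))) (hn : 2 ≤ n) (hnr : 3 * n + 4 = 2 * r) :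
    HasCyc G (2 * r) := by
  classical
  have hx := pos_inf hf (p + 1)
  have hy := pos_inf hf p
  rcases connect (x := pos f (p + 1)) hd hp.1 hy with ⟨c, hg⟩ | ⟨hcn, u, v, hg, -⟩
  · rcases eqv_or_nev c with he | he
    · exact cyc_of_ln2 hx (gen2_ln2 hp.1 hg he) hr
    · have h1 := Ln.cyc hx (gen2_ln4 hp.1 hy hg he) (hp'.ln hx n hn)
      rwa [show 4 + 3 * n = 2 * r by omega] at h1
  · obtain ⟨i, hi1, hi2, hi3, hi4, hi5⟩ := ((hg.and ((gen3_link hp.1 hg).and
      ((gen3_memv hp.1 hg).and (hp.2.1.and (hp.ln hy n hn)))))).exists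
    obtain ⟨k, hk1, hk2, hk3, hk4, hk5, hk6⟩ := (hi1.and (hi2.and ((hi3 {pos f p i}).and
      (hi4.and (hi5.and (hy {pos f p i, pos f (p + 1) i})))))).exists
    simp only [Finset.mem_insert, Finset.mem_singleton, not_or] at hk3 hk6
    have l1 : IsLink G (pos f p i) (pos f (p + 1) i) 1 [] := isLink_one (hadj (i + p))
    have hu : pos f p i ≠ u i k := by
      intro e
      exact hk4 (v i k) (by rw [e]; exact hk1.2.1) hk1.2.2
    have hii : pos f p i ≠ pos f (p + 1) i := (hadj (i + p)).ne
    have l2 := l1.trans hk2 (by simp [hu, Ne.symm hk3]) (by simp) hii hk6.2 (by simp)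
    have h1 := cyc_of_link_lk (Ne.symm hk6.1) l2 hk5
    rwa [show 1 + 3 + 3 * n = 2 * r by omega] at h1

/-- `r ≥ 5` -/
theorem main_five {r : ℕ} (hr : 5 ≤ r) (hd : Dist3 G) : HasCyc G (2 * r) := by
  by_contra hc
  have hr4 : 4 ≤ r := by omega
  have hrob : ∀ a, NonHub G (pos f a) → Rob G (pos f a) := fun a ha =>
    rob_of_nonHub hr4 hc hd (pos_inf hf a) ha
  by_cases hall : ∀ a, ∃ z, Hub G f a z
  · exact hc (all_hub hf hadj hr4 hall)
  · push Not at hall
    obtain ⟨p, hp⟩ := hall
    have hpn : NonHub G (pos f p) := (hub_or f p).resolve_left (fun ⟨z, hz⟩ => hp z hz)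
    have hpr := hrob p hpn
    have hcase : r % 3 = 0 ∨ r % 3 = 1 ∨ r % 3 = 2 := by omega
    rcases hcase with h3 | h3 | h3
    · obtain ⟨m, rfl⟩ : ∃ m, r = 3 * m := ⟨r / 3, by omega⟩
      have h1 := Ln.cyc (pos_inf hf p) (hpr.ln (pos_inf hf p) 2 le_rfl)
        (hpr.ln (pos_inf hf p) (2 * m - 2) (by omega))
      apply hc
      rwa [show 3 * 2 + 3 * (2 * m - 2) = 2 * (3 * m) by omega] at h1
    · obtain ⟨m, rfl⟩ : ∃ m, r = 3 * m + 1 := ⟨r / 3, by omega⟩
      have key : ∀ q, NonHub G (pos f q) → ¬ NonHub G (pos f (q + 1)) := by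
        intro q h1 h2
        apply hc
        have := two_rob hf hadj (hrob q h1) (hrob (q + 1) h2) (le_refl 2)
          (show 2 ≤ 2 * m - 2 by omega)
        rwa [show 3 * 2 + 2 + 3 * (2 * m - 2) = 2 * (3 * m + 1) by omega] at this
      have key' : ∀ z, ¬ Hub G f (p + 3) z := by
        intro z hz
        apply hc
        have := one_hub hf hadj (Nat.le_add_right p 3) (Nat.le_add_right p 3) hz hz hpr
          (show 2 ≤ 2 * m - 2 by omega)
        rwa [show p + 3 - p + 1 + 3 * (2 * m - 2) + (p + 3 - p + 1) = 2 * (3 * m + 1) by omega]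
          at this
      have h3n : NonHub G (pos f (p + 3)) := (hub_or f (p + 3)).resolve_left
        (fun ⟨z, hz⟩ => key' z hz)
      obtain ⟨z, hz⟩ := (hub_or f (p + 1)).resolve_right (key p hpn)
      obtain ⟨z', hz'⟩ := (hub_or f (p + 2)).resolve_right (fun h => key (p + 2) h h3n)
      by_cases hzz : z = z'
      · subst hzz
        apply hc
        have := one_hub hf hadj (Nat.le_add_right p 1) (Nat.le_add_right p 2) hz hz' hpr
          (show 2 ≤ 2 * m - 1 by omega)
        rwa [show p + 1 - p + 1 + 3 * (2 * m - 1) + (p + 2 - p + 1) = 2 * (3 * m + 1) by omega]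
          at this
      · apply hc
        have h1 := hub_hub hf hadj (show p + 1 ≤ p + 2 by omega) hz hz'
        have h2 := hub_rob_hub hf hadj (Nat.le_add_right p 1) (Nat.le_add_right p 2) hz hz'
          (hpr.ln (pos_inf hf p) (2 * m - 2) (by omega))
        have h4 := cyc_of_lk_lk hzz h1 h2
        rwa [show p + 2 - (p + 1) + 2 + (p + 1 - p + 1 + 3 * (2 * m - 2) + (p + 2 - p + 1)) =
          2 * (3 * m + 1) by omega] at h4
    · obtain ⟨m, rfl⟩ : ∃ m, r = 3 * m + 2 := ⟨r / 3, by omega⟩
      rcases hub_or (G := G) f (p + 1) with ⟨z, hz⟩ | hn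
      · apply hc
        have := one_hub hf hadj (Nat.le_add_right p 1) (Nat.le_add_right p 1) hz hz hpr
          (show 2 ≤ 2 * m by omega)
        rwa [show p + 1 - p + 1 + 3 * (2 * m) + (p + 1 - p + 1) = 2 * (3 * m + 2) by omega]
          at this
      · exact hc (two_rob' hf hadj hr4 hd hpr (hrob _ hn) (show 2 ≤ 2 * m by omega) (by omega))

end ray

/-! ### The case `r = 4` -/

theorem cyc8_of_ln4 {y : ℕ → V} (hyi : Inf y) (h : Ln G y 4) : HasCyc G 8 := Ln.cyc hyi h h

theorem cyc8_of_ln2 {y : ℕ → V} (hyi : Inf y) (h : Ln G y 2) : HasCyc G 8 :=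
  cyc_of_ln2 (r := 4) hyi h le_rfl

theorem cyc8_of_gen2 {x y : ℕ → V} {c : ℕ → ℕ → V} (hx : Inf x) (hy : NonHub G y) (hyi : Inf y)
    (hg : Gen2 G x y c) : HasCyc G 8 := by
  rcases eqv_or_nev c with he | he
  · exact cyc8_of_ln2 hx (gen2_ln2 hy hg he)
  · exact cyc8_of_ln4 hx (gen2_ln4 hy hyi hg he)

theorem inf_or_const (W : ℕ → V) : Inf W ∨ ∃ z, ∀ᶠ k in U, W k = z := by
  rcases genU_or_const (fun _ k => W k) with h | ⟨W', h⟩
  · left
    obtain ⟨i, hi⟩ := h.exists
    exact hi
  · right
    obtain ⟨i, hi⟩ := h.exists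
    exact ⟨W' i, hi⟩

/-- two families without hubs have generic connections of length three -/
theorem gen_uv {x y : ℕ → V} (hc : ¬ HasCyc G 8) (hd : Dist3 G) (hx : NonHub G x) (hxi : Inf x)
    (hy : NonHub G y) (hyi : Inf y) : NoCN G x y ∧ ∃ u v, Gen3 G x y u v ∧ GenU u := by
  rcases connect (x := x) hd hy hyi with ⟨c, hg⟩ | ⟨hcn, u, v, hg, hu | ⟨W, hW, hg2⟩⟩
  · exact absurd (cyc8_of_gen2 hxi hy hyi hg) hc
  · exact ⟨hcn, u, v, hg, hu⟩
  · exfalso
    have hWi : Inf W := by
      intro F
      filter_upwards [hW, hx.fin F] with k hk hk' hmem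
      exact hk' _ hmem hk.symm
    exact hc (cyc8_of_gen2 hWi hy hyi hg2)

section ray

variable {f : ℕ → V} (hf : Function.Injective f) (hadj : ∀ n, G.Adj (f n) (f (n + 1)))
include hf hadj

theorem four_step {p : ℕ} (hc : ¬ HasCyc G 8) (hd : Dist3 G) (hp : NonHub G (pos f p)) :
    NonHub G (pos f (p + 2)) := by
  classical
  have hy := pos_inf hf p
  have hx := pos_inf hf (p + 2)
  rcases hub_or (G := G) f (p + 2) with ⟨z₀, hz₀⟩ | h
  swap
  · exact h
  exfalso
  apply hc
  have hrob : Rob G (pos f p) := rob_of_nonHub (r := 4) le_rfl hc hd hy hp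
  rcases connect (x := pos f (p + 2)) hd hp hy with ⟨c, hg⟩ | ⟨hcn, u, v, hg, hu | ⟨W, hW, hg2⟩⟩
  · exact cyc8_of_gen2 hx hp hy hg
  · rcases eqv_or_nev u with he | he
    · exact cyc8_of_ln2 hx (gen3_ln2 hg hu he)
    · rcases eqv_or_nev v with hv | hv
      · exact cyc8_of_ln4 hx (gen3_ln4 hp hg hu he hv)
      · have h6 := gen3_ln6 hp hy hcn hg hu he hv
        obtain ⟨i, hi1, hi2⟩ := (h6.and hz₀).exists
        obtain ⟨j, hj1, hj2, hj3⟩ := (hi1.and (hz₀.and (hx {pos f (p + 2) i}))).exists
        exact cyc_of_link_lk (fun e => hj3 (by rw [Finset.mem_singleton]; exact e.symm))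
          (isLink_two hi2.symm hj2) hj1
  · rcases inf_or_const W with hWi | ⟨z, hz⟩
    · exact cyc8_of_gen2 hWi hp hy hg2
    · obtain ⟨u', v', hg', hu', hv'⟩ := hrob.2.2.2.2
      obtain ⟨i₀, hi1, hi2⟩ := (hg2.and hz).exists
      rw [hi2] at hi1
      have hne := hv'.ne (fun k => v i₀ k)
      obtain ⟨l, l1, l2, l3, l4, l5, l6, l7, l8, l9⟩ := (hne.and ((gen3_link hp hg').and
        (hg'.and (hrob.2.1.and (hu'.and ((gen3_memv hp hg').and (hW.and (hz.and
          (win_avoid hf (p + 2) {z}))))))))).exists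
      have hlk : Lk G z (pos f p l) 5 := by
        intro F
        obtain ⟨k, k1, k2, k3, k4, k5, k6, k7, k8⟩ := (l1.and (l2.and (l3.and (l4.and
          ((l5 (insert z F)).and ((l6 (insert z F)).and ((hy (insert z (insert (pos f p l) F))).and
            ((hi1.and (hp.fin (insert z (insert (pos f p l) F)))))))))))).exists
        simp only [Finset.mem_insert, not_or] at k5 k6 k7
        have w1 : v i₀ k ≠ pos f p l := fun e => k8.2 _ (by simp [e]) k8.1.2
        have w2 : v i₀ k ∉ F := fun e => k8.2 (v i₀ k) (by simp [e]) k8.1.2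
        have w3 : v i₀ k ≠ u' l k := fun e => k4 (u' l k) k3.1 (e ▸ k8.1.2)
        have a1 := isLink_two k8.1.1 k8.1.2
        have a2 := a1.trans k2.symm (by simp [Ne.symm k5.1, Ne.symm k6.1])
          (by simp [Ne.symm w1]) (Ne.symm k7.1) (Ne.symm k7.2.1)
          (by simp [Ne.symm k1, w3])
        refine ⟨_, a2, ?_⟩
        intro w hw
        simp only [List.reverse_cons, List.reverse_nil, List.cons_append, List.nil_append,
          List.mem_cons, List.not_mem_nil, or_false] at hw
        rcases hw with rfl | rfl | rfl | rfl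
        · exact w2
        · exact k7.2.2
        · exact k6.2
        · exact k5.2
      have e1 : G.Adj z (pos f (p + 2) l) := by rw [← l8]; exact l7.symm
      have e2 : IsLink G z (pos f p l) 3 [f (l + (p + 2)), f (l + (p + 1))] := by
        refine isLink_three e1 (hadj (l + (p + 1))).symm (hadj (l + p)).symm ?_ ?_
        · intro e; exact l9 (p + 1) (by omega) (by simp [e])
        · intro e; have := hf e; omega
      have hzl : z ≠ pos f p l := fun e => l9 p (by omega) (by
        rw [Finset.mem_singleton]; exact e.symm)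
      exact cyc_of_link_lk hzl e2 hlk

theorem four_odd {p : ℕ} (h : ∀ m ≤ 3, ∃ z, Hub G f (p + 2 * m) z) : HasCyc G 8 := by
  obtain ⟨z0, h0⟩ := h 0 (by omega)
  obtain ⟨z1, h1⟩ := h 1 (by omega)
  obtain ⟨z2, h2⟩ := h 2 (by omega)
  obtain ⟨z3, h3⟩ := h 3 (by omega)
  have key : ∀ (a : ℕ) (z z' : V), Hub G f a z → Hub G f (a + 2) z' → z ≠ z' → HasCyc G 8 := by
    intro a z z' hz hz' hne
    have h1 := hub_hub hf hadj (Nat.le_add_right a 2) hz hz'
    rw [show a + 2 - a + 2 = 4 by omega] at h1
    exact cyc_of_lk_lk hne h1 h1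
  by_cases e1 : z0 = z1
  · by_cases e2 : z1 = z2
    · by_cases e3 : z2 = z3
      · subst e1 e2 e3
        have h5 := hub_hub hf hadj (show p + 2 * 0 ≤ p + 2 * 3 by omega) h0 h3
        obtain ⟨I, hI, -⟩ := h5 ∅
        refine ⟨z0, I, ?_⟩
        rwa [show p + 2 * 3 - (p + 2 * 0) + 2 = 8 by omega] at hI
      · exact key (p + 2 * 2) z2 z3 h2 h3 e3
    · exact key (p + 2 * 1) z1 z2 h1 h2 e2
  · exact key (p + 2 * 0) z0 z1 h0 h1 e1

theorem four_two {a q : ℕ} (hc : ¬ HasCyc G 8) (hd : Dist3 G) (ha : NonHub G (pos f a))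
    (ha' : NonHub G (pos f (a + 2))) (hq : NonHub G (pos f q)) :
    ∀ᶠ i in U, Lk G (f (i + a)) (f (i + (a + 2))) 2 := by
  classical
  have hy := pos_inf hf q
  obtain ⟨hcn, u, v, hg, hu⟩ := gen_uv hc hd ha (pos_inf hf a) hq hy
  obtain ⟨hcn', u', v', hg', hu'⟩ := gen_uv hc hd ha' (pos_inf hf (a + 2)) hq hy
  filter_upwards [hcn, hg, hu, gen3_link hq hg, gen3_memv hq hg, hcn', hg', hu',
    gen3_link hq hg', gen3_memv hq hg'] with i a1 a2 a3 a4 a5 b1 b2 b3 b4 b5
  have hii : f (i + a) ≠ f (i + (a + 2)) := fun e => by have := hf e; omega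
  rcases Ultrafilter.em U (fun k => u i k = u' i k) with h | h
  · intro F
    obtain ⟨k, k1, k2, k3, k4⟩ := (h.and (a2.and (b2.and (a3 F)))).exists
    refine ⟨[u i k], isLink_two k2.1 ?_, by simpa using k4⟩
    rw [k1]; exact k3.1.symm
  · exfalso
    rcases Ultrafilter.em U (fun k => v i k = v' i k) with h' | h'
    · have h4 : Lk G (f (i + a)) (f (i + (a + 2))) 4 := by
        intro F
        obtain ⟨k, k1, k2, k3, k4, k5, k6, k7⟩ := (h.and (h'.and (a2.and (b2.and
          ((a3 (insert (f (i + (a + 2))) F)).and ((b3 (insert (f (i + a)) F)).and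
            (a5 (insert (f (i + a)) (insert (f (i + (a + 2))) F))))))))).exists
        simp only [Finset.mem_insert, not_or] at k5 k6 k7
        have m1 := isLink_two k3.1 k3.2.1
        have m2 : IsLink G (v i k) (f (i + (a + 2))) 2 [u' i k] := by
          rw [k2]; exact isLink_two k4.2.1.symm k4.1.symm
        have m3 := m1.trans m2 (by simp; exact fun e => k6.1 e.symm)
          (by simp; exact fun e => k5.1 e.symm) (Ne.symm k7.1)
          (Ne.symm k7.2.1) (by simpa using k1)
        refine ⟨_, m3, ?_⟩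
        intro w hw
        simp only [List.cons_append, List.nil_append, List.mem_cons, List.not_mem_nil,
          or_false] at hw
        rcases hw with rfl | rfl | rfl
        · exact k5.2
        · exact k7.2.2
        · exact k6.2
      exact hc (cyc_of_lk_lk hii h4 h4)
    · apply hc
      set F : Finset V := {f (i + a), f (i + (a + 1)), f (i + (a + 2))} with hF
      obtain ⟨k, k1, k2, k3, k4, k5, k6, k7, k8, k9, k10, k11, k12, k13⟩ := (h.and (h'.and
        (a1.and (a2.and ((a3 F).and (a4.and ((a5 F).and (b1.and (b2.and ((b3 F).and (b4.and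
          ((b5 F).and (hy F))))))))))))).exists
      simp only [hF, Finset.mem_insert, Finset.mem_singleton, not_or] at k5 k7 k10 k12 k13
      have m1 := k6.trans k11.symm
        (by
          simp only [List.reverse_cons, List.reverse_nil, List.nil_append, List.cons_append,
            List.mem_cons, List.not_mem_nil, or_false, not_or]
          exact ⟨fun e => k12.1 e.symm, fun e => k10.1 e.symm⟩)
        (by
          simp only [List.mem_cons, List.not_mem_nil, or_false, not_or]
          exact ⟨fun e => k5.2.2 e.symm, fun e => k7.2.2 e.symm⟩)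
        (fun e => k13.1 e.symm) (fun e => k13.2.2 e.symm)
        (by
          intro w hw hw'
          simp only [List.reverse_cons, List.reverse_nil, List.nil_append, List.cons_append,
            List.mem_cons, List.not_mem_nil, or_false] at hw hw'
          rcases hw with hw | hw <;> rcases hw' with hw' | hw'
          · exact k3 (u i k) k4.1 (by rw [← hw, hw']; exact k9.2.2)
          · exact k1 (hw.symm.trans hw')
          · exact k2 (hw.symm.trans hw')
          · exact k8 (u' i k) k9.1 (by rw [← hw', hw]; exact k4.2.2))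
      have m2 : IsLink G (pos f (a + 2) i) (pos f a i) 2 [f (i + (a + 1))] :=
        isLink_two (hadj (i + (a + 1))).symm (hadj (i + a)).symm
      have e1 : f (i + a) ≠ f (i + (a + 1)) := fun e => by have := hf e; omega
      have m3 := m1.trans m2 (by simpa [pos] using e1) m1.2.2.1 hii hii
        (by
          intro w hw hw'
          simp only [List.mem_singleton] at hw'
          simp only [List.reverse_cons, List.reverse_nil, List.nil_append, List.cons_append,
            List.mem_cons, List.not_mem_nil, or_false] at hw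
          rw [hw'] at hw
          rcases hw with hw | hw | hw | hw | hw
          · exact k5.2.1 hw.symm
          · exact k7.2.1 hw.symm
          · exact k13.2.1 hw.symm
          · exact k12.2.1 hw.symm
          · exact k10.2.1 hw.symm)
      exact ⟨_, _, m3⟩

/-- the case `r = 4` -/
theorem main_four (hd : Dist3 G) : HasCyc G 8 := by
  classical
  by_contra hc
  by_cases hall : ∀ a, ∃ z, Hub G f a z
  · exact hc (all_hub (r := 4) hf hadj le_rfl hall)
  push Not at hall
  obtain ⟨p, hp⟩ := hall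
  have hpn : NonHub G (pos f p) := (hub_or f p).resolve_left (fun ⟨z, hz⟩ => hp z hz)
  have hstep : ∀ n q, NonHub G (pos f q) → NonHub G (pos f (q + 2 * n)) := by
    intro n
    induction n with
    | zero => intro q hq; exact hq
    | succ n ih =>
      intro q hq
      have := four_step hf hadj hc hd (ih q hq)
      rwa [show q + 2 * n + 2 = q + 2 * (n + 1) by omega] at this
  have hodd : ∃ m ≤ 3, NonHub G (pos f (p + 1 + 2 * m)) := by
    by_contra hcon
    push Not at hcon
    apply hc
    apply four_odd hf hadj (p := p + 1)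
    intro m hm
    exact (hub_or f _).resolve_right (hcon m hm)
  obtain ⟨m, hm, hmn⟩ := hodd
  have hall' : ∀ n, NonHub G (pos f (p + 7 + n)) := by
    intro n
    rcases Nat.even_or_odd' n with ⟨t, ht | ht⟩
    · have := hstep (t + 3 - m) _ hmn
      rwa [show p + 1 + 2 * m + 2 * (t + 3 - m) = p + 7 + n by omega] at this
    · have := hstep (t + 4) _ hpn
      rwa [show p + 2 * (t + 4) = p + 7 + n by omega] at this
  set q := p + 7 with hq
  have l0 := four_two hf hadj hc hd (hall' 0) (hall' 2) (hall' 0)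
  have l1 := four_two hf hadj hc hd (hall' 1) (hall' 3) (hall' 0)
  have l2 := four_two hf hadj hc hd (hall' 2) (hall' 4) (hall' 0)
  obtain ⟨i, h0, h1, h2⟩ := (l0.and (l1.and l2)).exists
  have inj : ∀ s t : ℕ, s ≠ t → f (i + (q + s)) ≠ f (i + (q + t)) := by
    intro s t hst e
    have := hf e
    omega
  have h0' : Lk G (f (i + (q + 0))) (f (i + (q + 2))) 2 := h0
  have h1' : Lk G (f (i + (q + 1))) (f (i + (q + 3))) 2 := h1
  have h2' : Lk G (f (i + (q + 2))) (f (i + (q + 4))) 2 := h2
  obtain ⟨A, hA, hAF⟩ := h0' {f (i + (q + 1)), f (i + (q + 3)), f (i + (q + 4))}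
  obtain ⟨B, hB, hBF⟩ := h2' (insert (f (i + (q + 0))) (insert (f (i + (q + 1)))
    (insert (f (i + (q + 3))) A.toFinset)))
  have c1 : IsLink G (f (i + (q + 1))) (f (i + (q + 0))) 1 [] :=
    isLink_one (hadj (i + (q + 0))).symm
  have c2 : IsLink G (f (i + (q + 4))) (f (i + (q + 3))) 1 [] :=
    isLink_one (hadj (i + (q + 3))).symm
  have c3 := c1.trans hA (fun h => hAF _ h (by simp)) (by simp) (inj 1 0 (by omega))
    (inj 2 0 (by omega)) (by simp)
  have c4 := c3.trans hB (fun h => hBF _ h (by simp))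
    (by
      simp only [List.nil_append, List.mem_cons, not_or]
      exact ⟨inj 4 0 (by omega), fun h => hAF _ h (by simp)⟩)
    (inj 1 2 (by omega)) (inj 4 2 (by omega))
    (by
      intro w hw hw'
      simp only [List.nil_append, List.mem_cons] at hw
      rcases hw with rfl | hw
      · exact hBF _ hw' (by simp)
      · exact hBF _ hw' (by simp [hw]))
  have c5 := c4.trans c2 (by simp)
    (by
      simp only [List.nil_append, List.mem_cons, List.cons_append, List.mem_append, not_or]
      exact ⟨inj 3 0 (by omega), fun h => hAF _ h (by simp), inj 3 2 (by omega),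
        fun h => hBF _ h (by simp)⟩)
    (inj 1 4 (by omega)) (inj 3 4 (by omega)) (by simp)
  exact hc (cyc_of_link_lk (inj 1 3 (by omega)) c5 h1')

/-- A graph of diameter at most three with a ray contains all even cycles of length at least
eight. -/
theorem hasCyc_of_ray {r : ℕ} (hr : 4 ≤ r) (hd : Dist3 G) : HasCyc G (2 * r) := by
  rcases Nat.eq_or_lt_of_le hr with h | h
  · subst h
    exact main_four hf hadj hd
  · exact main_five hf hadj h hd

end ray

end Pool.Agent.KS41TD.GenLink
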