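import Mathlib

/-! Generic links between families of vertices, along a non-principal ultrafilter. -/

set_option autoImplicit false

namespace Pool.Agent.KS41TD.GenLink

open Filter

variable {V : Type*} {G : SimpleGraph V}

/-- `I` lists the interior of a path (or, when `a = b`, of a closed path) of length `ℓ` from `a` to
`b`. -/
def IsLink (G : SimpleGraph V) (a b : V) (ℓ : ℕ) (I : List V) : Prop :=
  I.length + 1 = ℓ ∧ I.Nodup ∧ a ∉ I ∧ b ∉ I ∧ (a :: (I ++ [b])).IsChain G.Adj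

theorem IsLink.symm {a b : V} {ℓ : ℕ} {I : List V} (h : IsLink G a b ℓ I) :
    IsLink G b a ℓ I.reverse := by
  obtain ⟨h1, h2, h3, h4, h5⟩ := h
  refine ⟨by simpa using h1, by simpa using h2, by simpa using h4, by simpa using h3, ?_⟩
  have h6 : (b :: (I.reverse ++ [a])) = (a :: (I ++ [b])).reverse := by simp
  rw [h6, List.isChain_reverse]
  exact h5.imp (fun x y hxy => hxy.symm)

theorem IsLink.trans {a b c : V} {ℓ₁ ℓ₂ : ℕ} {I J : List V} (h : IsLink G a b ℓ₁ I)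
    (h' : IsLink G b c ℓ₂ J) (haJ : a ∉ J) (hcI : c ∉ I) (hab : a ≠ b) (hcb : c ≠ b)
    (hIJ : ∀ v ∈ I, v ∉ J) : IsLink G a c (ℓ₁ + ℓ₂) (I ++ b :: J) := by
  obtain ⟨h1, h2, h3, h4, h5⟩ := h
  obtain ⟨k1, k2, k3, k4, k5⟩ := h'
  refine ⟨by simp; omega, ?_, ?_, ?_, ?_⟩
  · rw [List.nodup_append]
    refine ⟨h2, List.nodup_cons.2 ⟨k3, k2⟩, ?_⟩
    intro x hx y hy hxy
    subst hxy
    rcases List.mem_cons.1 hy with hy | hy
    · exact h4 (hy ▸ hx)
    · exact hIJ x hx hy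
  · simp [h3, hab, haJ]
  · simp [hcI, hcb, k4]
  · have h6 : (a :: ((I ++ b :: J) ++ [c])) = (a :: I) ++ b :: (J ++ [c]) := by simp
    rw [h6, List.isChain_split]
    refine ⟨?_, k5⟩
    simpa using h5

theorem isLink_one {a b : V} (h : G.Adj a b) : IsLink G a b 1 [] := by
  refine ⟨rfl, List.nodup_nil, by simp, by simp, ?_⟩
  simp [h]

theorem isLink_two {a b c : V} (h : G.Adj a c) (h' : G.Adj c b) : IsLink G a b 2 [c] := by
  refine ⟨rfl, by simp, by simp [h.ne], by simp [h'.ne'], ?_⟩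
  simp [h, h']

theorem isLink_three {a b c d : V} (h : G.Adj a c) (h' : G.Adj c d) (h'' : G.Adj d b)
    (had : a ≠ d) (hcb : b ≠ c) : IsLink G a b 3 [c, d] := by
  refine ⟨rfl, by simp [h'.ne], by simp [h.ne, had], by simp [h''.ne', hcb], ?_⟩
  simp [h, h', h'']

/-- a link avoiding `F` -/
def Seg (G : SimpleGraph V) (a b : V) (ℓ : ℕ) (F : Finset V) : Prop :=
  ∃ I : List V, IsLink G a b ℓ I ∧ ∀ v ∈ I, v ∉ F

theorem Seg.mono {a b : V} {ℓ : ℕ} {F F' : Finset V} (h : Seg G a b ℓ F') (hF : F ⊆ F') :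
    Seg G a b ℓ F := by
  obtain ⟨I, h1, h2⟩ := h
  exact ⟨I, h1, fun v hv hv' => h2 v hv (hF hv')⟩

theorem Seg.symm {a b : V} {ℓ : ℕ} {F : Finset V} (h : Seg G a b ℓ F) : Seg G b a ℓ F := by
  obtain ⟨I, h1, h2⟩ := h
  exact ⟨I.reverse, h1.symm, fun v hv => h2 v (by simpa using hv)⟩

/-- links avoiding any given finite set -/
def Lk (G : SimpleGraph V) (a b : V) (ℓ : ℕ) : Prop := ∀ F : Finset V, Seg G a b ℓ F

theorem Lk.symm {a b : V} {ℓ : ℕ} (h : Lk G a b ℓ) : Lk G b a ℓ := fun F => (h F).symm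

/-- there is a closed path of length `n` -/
def HasCyc (G : SimpleGraph V) (n : ℕ) : Prop := ∃ (a : V) (I : List V), IsLink G a a n I

theorem cyc_of_link_lk {a b : V} {ℓ₁ ℓ₂ : ℕ} {I : List V} (hab : a ≠ b)
    (h : IsLink G a b ℓ₁ I) (h' : Lk G a b ℓ₂) : HasCyc G (ℓ₁ + ℓ₂) := by
  classical
  obtain ⟨J, hJ, hJF⟩ := h'.symm (insert a (insert b I.toFinset))
  refine ⟨a, _, h.trans hJ ?_ h.2.2.1 hab hab ?_⟩
  · intro ha
    exact hJF a ha (by simp)
  · intro v hv hv'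
    exact hJF v hv' (by simp [hv])

theorem cyc_of_lk_lk {a b : V} {ℓ₁ ℓ₂ : ℕ} (hab : a ≠ b)
    (h : Lk G a b ℓ₁) (h' : Lk G a b ℓ₂) : HasCyc G (ℓ₁ + ℓ₂) := by
  obtain ⟨I, hI, -⟩ := h ∅
  exact cyc_of_link_lk hab hI h'

open Classical in
/-- composition of a segment avoiding `F`, and a robust link -/
theorem Seg.trans_lk {a b c : V} {ℓ₁ ℓ₂ : ℕ} {F : Finset V} (h : Seg G a b ℓ₁ (insert c F))
    (h' : Lk G b c ℓ₂) (hab : a ≠ b) (hcb : c ≠ b) (hbF : b ∉ F) : Seg G a c (ℓ₁ + ℓ₂) F := by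
  obtain ⟨I, hI, hIF⟩ := h
  obtain ⟨J, hJ, hJF⟩ := h' (insert a (F ∪ I.toFinset))
  refine ⟨I ++ b :: J, hI.trans hJ ?_ ?_ hab hcb ?_, ?_⟩
  · intro ha; exact hJF a ha (by simp)
  · intro hc; exact hIF c hc (by simp)
  · intro v hv hv'; exact hJF v hv' (by simp [hv])
  · intro v hv
    rcases List.mem_append.1 hv with hv | hv
    · intro hvF; exact hIF v hv (by simp [hvF])
    · rcases List.mem_cons.1 hv with hv | hv
      · rw [hv]; exact hbF
      · intro hvF; exact hJF v hv (by simp [hvF])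

/-! ### Families along the hyperfilter -/

/-- generic indices -/
noncomputable abbrev U : Ultrafilter ℕ := Filter.hyperfilter ℕ

/-- the family leaves every finite set -/
def Inf (y : ℕ → V) : Prop := ∀ F : Finset V, ∀ᶠ k in U, y k ∉ F

/-- no vertex is adjacent to almost all members of the family -/
def NonHub (G : SimpleGraph V) (y : ℕ → V) : Prop := ∀ z : V, ∀ᶠ k in U, ¬ G.Adj z (y k)

theorem NonHub.fin {y : ℕ → V} (h : NonHub G y) (F : Finset V) :
    ∀ᶠ k in U, ∀ z ∈ F, ¬ G.Adj z (y k) :=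
  (Filter.eventually_all_finset F).2 (fun z _ => h z)

/-- robust links between almost all pairs -/
def Ln (G : SimpleGraph V) (y : ℕ → V) (ℓ : ℕ) : Prop :=
  ∀ᶠ i in U, ∀ᶠ j in U, Lk G (y i) (y j) ℓ

/-- segments from almost every `x i` to almost all `y k` -/
def St (G : SimpleGraph V) (x y : ℕ → V) (c : ℕ) : Prop :=
  ∀ᶠ i in U, ∀ F : Finset V, ∀ᶠ k in U, Seg G (x i) (y k) c F

theorem Ln.st {y : ℕ → V} {ℓ : ℕ} (h : Ln G y ℓ) : St G y y ℓ := by
  filter_upwards [h] with i hi F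
  filter_upwards [hi] with k hk
  exact hk F

theorem Ln.add {y : ℕ → V} {c ℓ : ℕ} (hy : Inf y) (h : St G y y c) (h' : Ln G y ℓ) :
    Ln G y (c + ℓ) := by
  classical
  filter_upwards [h] with i hi
  filter_upwards [h'] with j hj
  intro F
  have h1 := hi (insert (y j) F)
  have h2 := hy (insert (y i) (insert (y j) F))
  obtain ⟨k, hk1, hk2, hk3⟩ := (h1.and (h2.and hj)).exists
  simp only [Finset.mem_insert, not_or] at hk2
  exact hk1.trans_lk hk3.symm (Ne.symm hk2.1) (Ne.symm hk2.2.1) hk2.2.2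

theorem Ln.cyc {y : ℕ → V} {ℓ₁ ℓ₂ : ℕ} (hy : Inf y) (h : Ln G y ℓ₁) (h' : Ln G y ℓ₂) :
    HasCyc G (ℓ₁ + ℓ₂) := by
  classical
  obtain ⟨i, hi, hi'⟩ := (h.and h').exists
  obtain ⟨j, hj, hj', hne⟩ := (hi.and (hi'.and (hy {y i}))).exists
  exact cyc_of_lk_lk (fun e => hne (by simp [e])) hj hj'

/-- the combination `c + c' + ℓ` -/
theorem Ln.cyc3 {y : ℕ → V} {c c' ℓ : ℕ} (hy : Inf y) (h : St G y y c) (h' : St G y y c')
    (h'' : Ln G y ℓ) : HasCyc G (c + c' + ℓ) := by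
  classical
  obtain ⟨i, hi, hi'⟩ := (h.and h').exists
  obtain ⟨k, hk1, hk2, hk3⟩ := ((hi {y i}).and ((hy {y i}).and h'')).exists
  obtain ⟨I, hI, hIF⟩ := hk1
  have hik : y i ≠ y k := fun e => hk2 (by simp [e])
  obtain ⟨l, hl1, hl2, hl3⟩ := ((hi' (insert (y i) (insert (y k) I.toFinset))).and
    ((hy (insert (y i) (insert (y k) I.toFinset))).and hk3)).exists
  obtain ⟨J, hJ, hJF⟩ := hl1
  simp only [Finset.mem_insert, not_or, List.mem_toFinset] at hl2
  have h1 : IsLink G (y k) (y l) (c + c') (I.reverse ++ y i :: J) := by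
    refine hI.symm.trans hJ ?_ ?_ (Ne.symm hik) hl2.1 ?_
    · intro hmem; exact hJF _ hmem (by simp)
    · intro hmem; exact hl2.2.2 (by simpa using hmem)
    · intro v hv hv'
      exact hJF v hv' (by simp at hv; simp [hv])
  exact cyc_of_link_lk (Ne.symm hl2.2.1) h1 hl3

theorem Ln.mul {y : ℕ → V} {c ℓ : ℕ} (hy : Inf y) (h : St G y y c) (h' : Ln G y ℓ) (n : ℕ) :
    Ln G y (n * c + ℓ) := by
  induction n with
  | zero => simpa using h'
  | succ n ih =>
    have := Ln.add hy h ih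
    have e : c + (n * c + ℓ) = (n + 1) * c + ℓ := by ring
    rwa [e] at this

/-! ### Connecting families -/

/-- common neighbours `c i k` of `x i` and `y k` -/
def Gen2 (G : SimpleGraph V) (x y : ℕ → V) (c : ℕ → ℕ → V) : Prop :=
  ∀ᶠ i in U, ∀ᶠ k in U, G.Adj (x i) (c i k) ∧ G.Adj (c i k) (y k)

/-- connectors `x i`, `u i k`, `v i k`, `y k` -/
def Gen3 (G : SimpleGraph V) (x y : ℕ → V) (u v : ℕ → ℕ → V) : Prop :=
  ∀ᶠ i in U, ∀ᶠ k in U, G.Adj (x i) (u i k) ∧ G.Adj (u i k) (v i k) ∧ G.Adj (v i k) (y k)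

/-- no common neighbours -/
def NoCN (G : SimpleGraph V) (x y : ℕ → V) : Prop :=
  ∀ᶠ i in U, ∀ᶠ k in U, ∀ z, G.Adj (x i) z → ¬ G.Adj z (y k)

/-- `c i k = c j k` generically -/
def Eqv (c : ℕ → ℕ → V) : Prop := ∀ᶠ i in U, ∀ᶠ j in U, ∀ᶠ k in U, c i k = c j k

/-- `c i k ≠ c j k` generically -/
def Nev (c : ℕ → ℕ → V) : Prop := ∀ᶠ i in U, ∀ᶠ j in U, ∀ᶠ k in U, c i k ≠ c j k

theorem eqv_or_nev (c : ℕ → ℕ → V) : Eqv c ∨ Nev c := by
  have h1 : ∀ i j, (∀ᶠ k in U, c i k = c j k) ∨ (∀ᶠ k in U, c i k ≠ c j k) :=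
    fun i j => Ultrafilter.em U _
  have h2 : ∀ i, (∀ᶠ j in U, ∀ᶠ k in U, c i k = c j k) ∨ (∀ᶠ j in U, ∀ᶠ k in U, c i k ≠ c j k) := by
    intro i
    rcases Ultrafilter.em U (fun j => ∀ᶠ k in U, c i k = c j k) with h | h
    · exact Or.inl h
    · right
      filter_upwards [h] with j hj
      exact (h1 i j).resolve_left hj
  rcases Ultrafilter.em U (fun i => ∀ᶠ j in U, ∀ᶠ k in U, c i k = c j k) with h | h
  · exact Or.inl h
  · right
    filter_upwards [h] with i hi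
    exact (h2 i).resolve_left hi

/-- if generic pairs are different then a given sequence is generically different -/
theorem Nev.ne {c : ℕ → ℕ → V} (h : Nev c) (w : ℕ → V) : ∀ᶠ i in U, ∀ᶠ k in U, c i k ≠ w k := by
  rcases Ultrafilter.em U (fun i => ∀ᶠ k in U, c i k = w k) with h1 | h1
  · exfalso
    obtain ⟨i, hi, hi'⟩ := (h.and h1).exists
    obtain ⟨j, hj, hj'⟩ := (hi.and h1).exists
    obtain ⟨k, hk, hk', hk''⟩ := (hj.and (hi'.and hj')).exists
    exact hk (hk'.trans hk''.symm)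
  · filter_upwards [h1] with i hi
    exact (Ultrafilter.em U (fun k => c i k = w k)).resolve_left hi

theorem gen2_mem {x y : ℕ → V} {c : ℕ → ℕ → V} (hy : NonHub G y) (h : Gen2 G x y c) :
    ∀ᶠ i in U, ∀ F : Finset V, ∀ᶠ k in U, c i k ∉ F := by
  filter_upwards [h] with i hi F
  filter_upwards [hi, hy.fin F] with k hk hk' hmem
  exact hk' _ hmem hk.2

theorem gen2_st {x y : ℕ → V} {c : ℕ → ℕ → V} (hy : NonHub G y) (h : Gen2 G x y c) :
    St G x y 2 := by
  filter_upwards [h, gen2_mem hy h] with i hi hi' F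
  filter_upwards [hi, hi' F] with k hk hk'
  exact ⟨[c i k], isLink_two hk.1 hk.2, by simpa using hk'⟩

theorem gen2_ln2 {x y : ℕ → V} {c : ℕ → ℕ → V} (hy : NonHub G y) (h : Gen2 G x y c)
    (he : Eqv c) : Ln G x 2 := by
  filter_upwards [h, gen2_mem hy h, he] with i hi hi' hie
  filter_upwards [h, hie] with j hj hje F
  obtain ⟨k, hk1, hk2, hk3, hk4⟩ := (hi.and ((hi' F).and (hj.and hje))).exists
  refine ⟨[c i k], isLink_two hk1.1 ?_, by simpa using hk2⟩
  rw [hk4]; exact hk3.1.symm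

theorem gen2_ln4 {x y : ℕ → V} {c : ℕ → ℕ → V} (hy : NonHub G y) (hyi : Inf y)
    (h : Gen2 G x y c) (he : Nev c) : Ln G x 4 := by
  classical
  filter_upwards [h, gen2_mem hy h, he] with i hi hi' hie
  filter_upwards [h, gen2_mem hy h, hie] with j hj hj' hje F
  obtain ⟨k, hk1, hk2, hk3, hk4, hk5, hk6⟩ := (hi.and ((hi' (insert (x j) F)).and (hj.and
    (hje.and ((hj' (insert (x i) F)).and
      (hyi (insert (x i) (insert (x j) F)))))))).exists
  simp only [Finset.mem_insert, not_or] at hk2 hk5 hk6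
  have h1 := isLink_two hk1.1 hk1.2
  have h2 := isLink_two hk3.2.symm hk3.1.symm
  have h3 := h1.trans h2 (by simp [Ne.symm hk5.1]) (by simp [Ne.symm hk2.1]) (Ne.symm hk6.1)
    (Ne.symm hk6.2.1) (by simpa using hk4)
  refine ⟨_, h3, ?_⟩
  intro v hv
  simp only [List.cons_append, List.nil_append, List.mem_cons, List.not_mem_nil, or_false] at hv
  rcases hv with rfl | rfl | rfl
  · exact hk2.2
  · exact hk6.2.2
  · exact hk5.2

/-- generic first connectors -/
def GenU (u : ℕ → ℕ → V) : Prop := ∀ᶠ i in U, ∀ F : Finset V, ∀ᶠ k in U, u i k ∉ F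

theorem gen3_memv {x y : ℕ → V} {u v : ℕ → ℕ → V} (hy : NonHub G y) (h : Gen3 G x y u v) :
    GenU v := by
  filter_upwards [h] with i hi F
  filter_upwards [hi, hy.fin F] with k hk hk' hmem
  exact hk' _ hmem hk.2.2

theorem gen3_link {x y : ℕ → V} {u v : ℕ → ℕ → V} (hy : NonHub G y) (h : Gen3 G x y u v) :
    ∀ᶠ i in U, ∀ᶠ k in U, IsLink G (x i) (y k) 3 [u i k, v i k] := by
  filter_upwards [h, gen3_memv hy h] with i hi hi'
  filter_upwards [hi, hi' {x i}, hy (x i)] with k hk hk' hk''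
  refine isLink_three hk.1 hk.2.1 hk.2.2 ?_ ?_
  · intro e; exact hk' (by simp [← e])
  · intro e; exact hk'' (by rw [e]; exact hk.1)

theorem gen3_st {x y : ℕ → V} {u v : ℕ → ℕ → V} (hy : NonHub G y) (h : Gen3 G x y u v)
    (hu : GenU u) : St G x y 3 := by
  filter_upwards [gen3_link hy h, gen3_memv hy h, hu] with i hi hi' hi'' F
  filter_upwards [hi, hi' F, hi'' F] with k hk hk' hk''
  exact ⟨_, hk, by simp [hk', hk'']⟩

theorem gen3_ln2 {x y : ℕ → V} {u v : ℕ → ℕ → V} (h : Gen3 G x y u v)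
    (hu : GenU u) (he : Eqv u) : Ln G x 2 := by
  filter_upwards [h, hu, he] with i hi hi' hie
  filter_upwards [h, hie] with j hj hje F
  obtain ⟨k, hk1, hk2, hk3, hk4⟩ := (hi.and ((hi' F).and (hj.and hje))).exists
  refine ⟨[u i k], isLink_two hk1.1 ?_, by simpa using hk2⟩
  rw [hk4]; exact hk3.1.symm

theorem gen3_ln4 {x y : ℕ → V} {u v : ℕ → ℕ → V} (hy : NonHub G y)
    (h : Gen3 G x y u v) (hu : GenU u) (hn : Nev u) (he : Eqv v) : Ln G x 4 := by
  classical
  filter_upwards [h, hu, hn, he, gen3_memv hy h] with i hi hi' hin hie hiv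
  filter_upwards [h, hu, hin, hie, gen3_memv hy h] with j hj hj' hjn hje hjv F
  obtain ⟨k, hk1, hk2, hk3, hk4, hk5, hk6, hk7⟩ := (hi.and ((hi' (insert (x j) F)).and (hj.and
    ((hj' (insert (x i) F)).and (hjn.and (hje.and
      (hiv (insert (x i) (insert (x j) F))))))))).exists
  simp only [Finset.mem_insert, not_or] at hk2 hk4 hk7
  have h1 := isLink_two hk1.1 hk1.2.1
  have h2 : IsLink G (v i k) (x j) 2 [u j k] := by
    rw [hk6]; exact isLink_two hk3.2.1.symm hk3.1.symm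
  have h3 := h1.trans h2 (by simp [Ne.symm hk4.1]) (by simp [Ne.symm hk2.1]) (Ne.symm hk7.1)
    (Ne.symm hk7.2.1) (by simpa using hk5)
  refine ⟨_, h3, ?_⟩
  intro w hw
  simp only [List.cons_append, List.nil_append, List.mem_cons, List.not_mem_nil, or_false] at hw
  rcases hw with rfl | rfl | rfl
  · exact hk2.2
  · exact hk7.2.2
  · exact hk4.2

theorem gen3_ln6 {x y : ℕ → V} {u v : ℕ → ℕ → V} (hy : NonHub G y) (hyi : Inf y)
    (hcn : NoCN G x y) (h : Gen3 G x y u v) (hu : GenU u) (hn : Nev u) (hm : Nev v) :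
    Ln G x 6 := by
  classical
  filter_upwards [h, hu, hn, hm, gen3_memv hy h, gen3_link hy h, hcn]
    with i hi hi' hin him hiv hil hicn
  filter_upwards [h, hu, hin, him, gen3_memv hy h, gen3_link hy h, hcn]
    with j hj hj' hjn hjm hjv hjl hjcn F
  obtain ⟨k, hk⟩ := (hi.and ((hi' (insert (x j) F)).and (hj.and
    ((hj' (insert (x i) F)).and (hjn.and (hjm.and ((hiv (insert (x j) F)).and
      ((hjv (insert (x i) F)).and (hil.and (hjl.and (hicn.and (hjcn.and
        (hyi (insert (x i) (insert (x j) F))))))))))))))).exists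
  obtain ⟨k1, k2, k3, k4, k5, k6, k7, k8, k9, k10, k11, k12, k13⟩ := hk
  simp only [Finset.mem_insert, not_or] at k2 k4 k7 k8 k13
  have h3 := k9.trans k10.symm (by simp [Ne.symm k4.1, Ne.symm k8.1])
    (by simp [Ne.symm k2.1, Ne.symm k7.1]) (Ne.symm k13.1) (Ne.symm k13.2.1) ?_
  · refine ⟨_, h3, ?_⟩
    intro w hw
    simp only [List.reverse_cons, List.reverse_nil, List.cons_append, List.nil_append,
      List.mem_cons, List.not_mem_nil, or_false] at hw
    rcases hw with rfl | rfl | rfl | rfl | rfl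
    · exact k2.2
    · exact k7.2
    · exact k13.2.2
    · exact k8.2
    · exact k4.2
  · intro w hw hw'
    simp only [List.reverse_cons, List.reverse_nil, List.cons_append, List.nil_append,
      List.mem_cons, List.not_mem_nil, or_false] at hw hw'
    rcases hw with hw | hw <;> rcases hw' with hw' | hw'
    · exact k11 (u i k) k1.1 (by rw [← hw, hw']; exact k3.2.2)
    · exact k5 (hw.symm.trans hw')
    · exact k6 (hw.symm.trans hw')
    · exact k12 (u j k) k3.1 (by rw [← hw', hw]; exact k1.2.2)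

/-- generic or constant first connectors -/
theorem genU_or_const (u : ℕ → ℕ → V) :
    GenU u ∨ ∃ W : ℕ → V, ∀ᶠ i in U, ∀ᶠ k in U, u i k = W i := by
  classical
  rcases Ultrafilter.em U (fun i => ∃ w, ∀ᶠ k in U, u i k = w) with h | h
  · right
    have : Nonempty V := ⟨u 0 0⟩
    have h' : ∀ i, ∃ w, (∃ w, ∀ᶠ k in U, u i k = w) → ∀ᶠ k in U, u i k = w := by
      intro i
      by_cases hi : ∃ w, ∀ᶠ k in U, u i k = w
      · obtain ⟨w, hw⟩ := hi
        exact ⟨w, fun _ => hw⟩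
      · exact ⟨u 0 0, fun h => absurd h hi⟩
    choose W hW using h'
    refine ⟨W, ?_⟩
    filter_upwards [h] with i hi
    exact hW i hi
  · left
    filter_upwards [h] with i hi F
    have : ∀ᶠ k in U, ∀ z ∈ F, u i k ≠ z := by
      refine (Filter.eventually_all_finset F).2 (fun z _ => ?_)
      rcases Ultrafilter.em U (fun k => u i k = z) with h | h
      · exact absurd ⟨z, h⟩ hi
      · exact h
    filter_upwards [this] with k hk hmem
    exact hk _ hmem rfl

/-- distance at most three -/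
def Dist3 (G : SimpleGraph V) : Prop := ∀ a b : V, a = b ∨ G.Adj a b ∨
  (∃ c, G.Adj a c ∧ G.Adj c b) ∨ ∃ c d, G.Adj a c ∧ G.Adj c d ∧ G.Adj d b

/-- the three kinds of generic connection between two families -/
theorem connect {x y : ℕ → V} (hd : Dist3 G) (hy : NonHub G y) (hyi : Inf y) :
    (∃ c, Gen2 G x y c) ∨ (NoCN G x y ∧ ∃ u v, Gen3 G x y u v ∧
      (GenU u ∨ ∃ W : ℕ → V, (∀ᶠ i in U, G.Adj (x i) (W i)) ∧ Gen2 G W y v)) := by
  classical
  rcases Ultrafilter.em U (fun i => ∀ᶠ k in U, ∃ c, G.Adj (x i) c ∧ G.Adj c (y k)) with h | h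
  · left
    have h' : ∀ i k, ∃ c, (∃ c, G.Adj (x i) c ∧ G.Adj c (y k)) → G.Adj (x i) c ∧ G.Adj c (y k) := by
      intro i k
      by_cases hik : ∃ c, G.Adj (x i) c ∧ G.Adj c (y k)
      · obtain ⟨c, hc⟩ := hik
        exact ⟨c, fun _ => hc⟩
      · exact ⟨x i, fun h => absurd h hik⟩
    choose c hc using h'
    refine ⟨c, ?_⟩
    filter_upwards [h] with i hi
    filter_upwards [hi] with k hk
    exact hc i k hk
  · right
    have hcn : NoCN G x y := by
      filter_upwards [h] with i hi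
      have := (Ultrafilter.em U (fun k => ∃ c, G.Adj (x i) c ∧ G.Adj c (y k))).resolve_left hi
      filter_upwards [this] with k hk z hz hz'
      exact hk ⟨z, hz, hz'⟩
    refine ⟨hcn, ?_⟩
    have h' : ∀ i k, ∃ p : V × V, (∃ p : V × V, G.Adj (x i) p.1 ∧ G.Adj p.1 p.2 ∧ G.Adj p.2 (y k))
        → G.Adj (x i) p.1 ∧ G.Adj p.1 p.2 ∧ G.Adj p.2 (y k) := by
      intro i k
      by_cases hik : ∃ p : V × V, G.Adj (x i) p.1 ∧ G.Adj p.1 p.2 ∧ G.Adj p.2 (y k)
      · obtain ⟨c, hc⟩ := hik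
        exact ⟨c, fun _ => hc⟩
      · exact ⟨(x i, x i), fun h => absurd h hik⟩
    choose p hp using h'
    have hg : Gen3 G x y (fun i k => (p i k).1) (fun i k => (p i k).2) := by
      filter_upwards [hcn] with i hi
      filter_upwards [hi, hy (x i), hyi {x i}] with k hk hk' hk''
      apply hp i k
      rcases hd (x i) (y k) with h1 | h1 | ⟨c, h1, h2⟩ | ⟨c, d, h1⟩
      · exact absurd h1.symm (by simpa using hk'')
      · exact absurd h1 hk'
      · exact absurd h2 (hk c h1)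
      · exact ⟨(c, d), h1⟩
    refine ⟨_, _, hg, ?_⟩
    rcases genU_or_const (fun i k => (p i k).1) with h1 | ⟨W, hW⟩
    · exact Or.inl h1
    · right
      refine ⟨W, ?_, ?_⟩
      · filter_upwards [hg, hW] with i hi hi'
        obtain ⟨k, hk, hk'⟩ := (hi.and hi').exists
        rw [← hk']; exact hk.1
      · filter_upwards [hg, hW] with i hi hi'
        filter_upwards [hi, hi'] with k hk hk'
        rw [← hk']; exact hk.2

/-- robust families -/
def Rob (G : SimpleGraph V) (y : ℕ → V) : Prop :=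
  NonHub G y ∧ NoCN G y y ∧ St G y y 3 ∧ Ln G y 6 ∧
    ∃ u v, Gen3 G y y u v ∧ GenU u ∧ Nev v

/-- even cycles from short links -/
theorem cyc_of_ln2 {y : ℕ → V} (hyi : Inf y) (h : Ln G y 2) {r : ℕ} (hr : 4 ≤ r) :
    HasCyc G (2 * r) := by
  have h1 := Ln.mul hyi h.st h (r - 2)
  have h2 := Ln.cyc hyi h h1
  have e : 2 + ((r - 2) * 2 + 2) = 2 * r := by omega
  rwa [e] at h2

theorem cyc_of_ln4_st2 {y : ℕ → V} (hyi : Inf y) (h : Ln G y 4) (h' : St G y y 2) {r : ℕ}
    (hr : 4 ≤ r) : HasCyc G (2 * r) := by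
  have h1 := Ln.mul hyi h' h (r - 4)
  have h2 := Ln.cyc hyi h h1
  have e : 4 + ((r - 4) * 2 + 4) = 2 * r := by omega
  rwa [e] at h2

theorem cyc_of_ln4_st3 {y : ℕ → V} (hyi : Inf y) (h : Ln G y 4) (h' : St G y y 3) {r : ℕ}
    (hr : 4 ≤ r) : HasCyc G (2 * r) := by
  rcases Nat.even_or_odd' r with ⟨m, hm | hm⟩
  · have h1 := Ln.mul hyi h.st h (m - 2)
    have h2 := Ln.cyc hyi h h1
    have e : 4 + ((m - 2) * 4 + 4) = 2 * r := by omega
    rwa [e] at h2
  · have h1 := Ln.mul hyi h.st h (m - 2)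
    have h2 := Ln.cyc3 hyi h' h' h1
    have e : 3 + 3 + ((m - 2) * 4 + 4) = 2 * r := by omega
    rwa [e] at h2

/-- every family without a hub is robust -/
theorem rob_of_nonHub {y : ℕ → V} {r : ℕ} (hr : 4 ≤ r) (hc : ¬ HasCyc G (2 * r)) (hd : Dist3 G)
    (hyi : Inf y) (hy : NonHub G y) : Rob G y := by
  rcases connect (x := y) hd hy hyi with ⟨c, hg⟩ | ⟨hcn, u, v, hg, hu | ⟨W, hW, hg2⟩⟩
  · exfalso
    apply hc
    rcases eqv_or_nev c with he | he
    · exact cyc_of_ln2 hyi (gen2_ln2 hy hg he) hr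
    · exact cyc_of_ln4_st2 hyi (gen2_ln4 hy hyi hg he) (gen2_st hy hg) hr
  · have hst := gen3_st hy hg hu
    rcases eqv_or_nev u with he | he
    · exact absurd (cyc_of_ln2 hyi (gen3_ln2 hg hu he) hr) hc
    · rcases eqv_or_nev v with hv | hv
      · exact absurd (cyc_of_ln4_st3 hyi (gen3_ln4 hy hg hu he hv) hst hr) hc
      · exact ⟨hy, hcn, hst, gen3_ln6 hy hyi hcn hg hu he hv, u, v, hg, hu, hv⟩
  · exfalso
    apply hc
    have hWi : Inf W := by
      intro F
      filter_upwards [hW, hy.fin F] with k hk hk' hmem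
      exact hk' _ hmem hk.symm
    rcases eqv_or_nev v with he | he
    · exact cyc_of_ln2 hWi (gen2_ln2 hy hg2 he) hr
    · refine cyc_of_ln4_st3 hWi (gen2_ln4 hy hyi hg2 he) ?_ hr
      filter_upwards [hg2, gen2_mem hy hg2, he.ne W] with i hi hi' hi'' F
      classical
      filter_upwards [hi, hi' F, hi'', hyi (insert (W i) F), hW] with k k1 k2 k3 k4 k5
      simp only [Finset.mem_insert, not_or] at k4
      refine ⟨[v i k, y k], isLink_three k1.1 k1.2 k5 (Ne.symm k4.1) (Ne.symm k3), ?_⟩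
      simp [k2, k4.2]

end Pool.Agent.KS41TD.GenLink
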