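import Mathlib

open Finset

namespace Pool.Agent.KS41TD.Hub

/-- the treedepth of `G` is at most `k`: there is a rooted forest order `le` on the vertices
(`le u v`: `u` is an ancestor of `v` or `u = v`; the ancestors of a vertex form a chain) of height
at most `k` such that every edge of `G` joins a vertex to one of its ancestors -/
def TreedepthLE {V : Type} (G : SimpleGraph V) (k : ℕ) : Prop :=
  ∃ le : V → V → Prop, (∀ v, le v v) ∧ (∀ u v, le u v → le v u → u = v) ∧
    (∀ u v w, le u v → le v w → le u w) ∧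
    (∀ u v w, le u w → le v w → le u v ∨ le v u) ∧
    (∀ v, ∀ s : Finset V, (∀ u ∈ s, le u v) → #s ≤ k) ∧
    (∀ u v, G.Adj u v → le u v ∨ le v u)

/-- the diameter of `G` is at most three -/
def DiamLEThree {V : Type} (G : SimpleGraph V) : Prop :=
  ∀ u v : V, ∃ p : G.Walk u v, p.length ≤ 3

/-- `G` has a (not necessarily induced) subgraph isomorphic to `F` -/
def Contains {V W : Type} (G : SimpleGraph V) (F : SimpleGraph W) : Prop :=
  ∃ φ : W → V, Function.Injective φ ∧ ∀ u v, F.Adj u v → G.Adj (φ u) (φ v)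

/-- `H` is a linear forest, i.e. a subgraph of a path -/
def IsLinearForest {W : Type} (H : SimpleGraph W) : Prop :=
  ∃ p : W → ℕ, Function.Injective p ∧ ∀ u v, H.Adj u v → p u + 1 = p v ∨ p v + 1 = p u

/-- `f 0, …, f (a - 1)` is a cycle of length `a` of `F` -/
def IsCyc {W : Type} (F : SimpleGraph W) (a : ℕ) (f : ℕ → W) : Prop :=
  (∀ i < a, ∀ j < a, f i = f j → i = j) ∧ ∀ i < a, F.Adj (f i) (f ((i + 1) % a))

lemma seg_min {V : Type} {le : V → V → Prop} (h1 : ∀ v, le v v)
    (h3 : ∀ u v w, le u v → le v w → le u w) (h4 : ∀ u v w, le u w → le v w → le u v ∨ le v u)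
    (q : ℕ → V) (i : ℕ) : ∀ d, (∀ t, i ≤ t → t < i + d → le (q t) (q (t + 1)) ∨ le (q (t + 1)) (q t)) →
      ∃ m, i ≤ m ∧ m ≤ i + d ∧ ∀ t, i ≤ t → t ≤ i + d → le (q m) (q t) := by
  intro d
  induction d with
  | zero =>
    intro _
    refine ⟨i, le_rfl, le_rfl, ?_⟩
    intro t ht ht'
    have : t = i := by omega
    rw [this]
    exact h1 _
  | succ d ih =>
    intro h
    obtain ⟨m, hm1, hm2, hm⟩ := ih (fun t ht ht' => h t ht (by omega))
    have hm' := hm (i + d) (by omega) (by omega)
    rcases h (i + d) (by omega) (by omega) with h5 | h5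
    · refine ⟨m, hm1, by omega, ?_⟩
      intro t ht ht'
      rcases Nat.lt_or_ge (i + d) t with h6 | h6
      · have : t = i + d + 1 := by omega
        rw [this]
        exact h3 _ _ _ hm' h5
      · exact hm t ht h6
    · rcases h4 _ _ _ hm' h5 with h6 | h6
      · refine ⟨m, hm1, by omega, ?_⟩
        intro t ht ht'
        rcases Nat.lt_or_ge (i + d) t with h7 | h7
        · have : t = i + d + 1 := by omega
          rw [this]
          exact h6
        · exact hm t ht h7
      · refine ⟨i + d + 1, by omega, by omega, ?_⟩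
        intro t ht ht'
        rcases Nat.lt_or_ge (i + d) t with h7 | h7
        · have : t = i + d + 1 := by omega
          rw [this]
          exact h1 _
        · exact h3 _ _ _ h6 (hm t ht h7)

lemma seg_deep {V : Type} [DecidableEq V] {le : V → V → Prop} (h1 : ∀ v, le v v)
    (h3 : ∀ u v w, le u v → le v w → le u w) (h4 : ∀ u v w, le u w → le v w → le u v ∨ le v u)
    (q : ℕ → V) (N : ℕ) (hq : ∀ t, t + 1 < N → le (q t) (q (t + 1)) ∨ le (q (t + 1)) (q t))
    (hinj : ∀ i < N, ∀ j < N, q i = q j → i = j) :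
    ∀ k i j, j ≤ N → 2 ^ (k + 1) ≤ j - i + 1 → ∃ t, i ≤ t ∧ t < j ∧ ∃ s : Finset V, #s = k + 1 ∧
      (∀ u ∈ s, le u (q t)) ∧ ∀ u ∈ s, ∃ r, i ≤ r ∧ r < j ∧ u = q r := by
  intro k
  induction k with
  | zero =>
    intro i j hj h
    refine ⟨i, le_rfl, by omega, {q i}, card_singleton _, ?_, ?_⟩
    · intro u hu
      rw [mem_singleton] at hu
      rw [hu]
      exact h1 _
    · intro u hu
      rw [mem_singleton] at hu
      exact ⟨i, le_rfl, by omega, hu⟩
  | succ k ih =>
    intro i j hj h
    have h2 : 2 ^ (k + 1 + 1) = 2 * 2 ^ (k + 1) := by ring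
    have h2' : 2 ≤ 2 ^ (k + 1) := by
      have : 1 ≤ 2 ^ k := Nat.one_le_two_pow
      rw [pow_succ]
      omega
    obtain ⟨m, hm1, hm2, hm⟩ := seg_min h1 h3 h4 q i (j - 1 - i) (fun t ht ht' => hq t (by omega))
    have hside : (2 ^ (k + 1) ≤ m - i + 1) ∨ (2 ^ (k + 1) ≤ j - (m + 1) + 1) := by omega
    obtain ⟨i', j', hi', hj', hm', hlen⟩ : ∃ i' j', i ≤ i' ∧ j' ≤ j ∧ (m < i' ∨ j' ≤ m) ∧
        2 ^ (k + 1) ≤ j' - i' + 1 := by
      rcases hside with hs | hs
      · exact ⟨i, m, le_rfl, by omega, Or.inr le_rfl, hs⟩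
      · exact ⟨m + 1, j, by omega, le_rfl, Or.inl (by omega), hs⟩
    obtain ⟨t, ht1, ht2, s, hs1, hs2, hs3⟩ := ih i' j' (by omega) hlen
    refine ⟨t, by omega, by omega, insert (q m) s, ?_, ?_, ?_⟩
    · rw [card_insert_of_notMem, hs1]
      intro hmem
      obtain ⟨r, hr1, hr2, hr3⟩ := hs3 _ hmem
      have := hinj m (by omega) r (by omega) hr3
      omega
    · intro u hu
      rw [mem_insert] at hu
      rcases hu with rfl | hu
      · exact hm t (by omega) (by omega)
      · exact hs2 u hu
    · intro u hu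
      rw [mem_insert] at hu
      rcases hu with rfl | hu
      · exact ⟨m, by omega, by omega, rfl⟩
      · obtain ⟨r, hr1, hr2, hr3⟩ := hs3 u hu
        exact ⟨r, by omega, by omega, hr3⟩

/-- a graph with a long path has large treedepth -/
theorem not_treedepthLE {V : Type} (G : SimpleGraph V) (k N : ℕ) (q : ℕ → V)
    (hN : 2 ^ (k + 1) ≤ N) (hq : ∀ t, t + 1 < N → G.Adj (q t) (q (t + 1)))
    (hinj : ∀ i < N, ∀ j < N, q i = q j → i = j) : ¬ TreedepthLE G k := by
  classical
  rintro ⟨le, h1, -, h3, h4, h5, h6⟩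
  obtain ⟨t, -, -, s, hs1, hs2, -⟩ := seg_deep h1 h3 h4 q N (fun t ht => h6 _ _ (hq t ht)) hinj
    k 0 N le_rfl (by omega)
  have := h5 _ s hs2
  omega

/-- a walk without turning back in a path is monotone -/
lemma straight (q : ℕ → ℕ) : ∀ m, (∀ k < m, q k + 1 = q (k + 1) ∨ q (k + 1) + 1 = q k) →
    (∀ k, k + 2 ≤ m → q (k + 2) ≠ q k) →
    (∀ k ≤ m, q k = q 0 + k) ∨ (∀ k ≤ m, q k + k = q 0) := by
  intro m
  induction m with
  | zero =>
    intro _ _
    left
    intro k hk
    have : k = 0 := by omega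
    rw [this, add_zero]
  | succ m ih =>
    intro h1 h2
    have ih' := ih (fun k hk => h1 k (by omega)) (fun k hk => h2 k (by omega))
    rcases Nat.eq_zero_or_pos m with hm | hm
    · subst hm
      have h0 := h1 0 (by omega)
      rw [zero_add] at h0
      rcases h0 with h | h
      · left
        intro k hk
        rcases (by omega : k = 0 ∨ k = 1) with rfl | rfl
        · rfl
        · omega
      · right
        intro k hk
        rcases (by omega : k = 0 ∨ k = 1) with rfl | rfl
        · rfl
        · omega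
    · have h3 := h1 m (by omega)
      have h4 := h2 (m - 1) (by omega)
      have e : m - 1 + 2 = m + 1 := by omega
      rw [e] at h4
      rcases ih' with h | h
      · left
        intro k hk
        rcases (by omega : k ≤ m ∨ k = m + 1) with hk' | rfl
        · exact h k hk'
        · have h5 := h m le_rfl
          have h6 := h (m - 1) (by omega)
          omega
      · right
        intro k hk
        rcases (by omega : k ≤ m ∨ k = m + 1) with hk' | rfl
        · exact h k hk'
        · have h5 := h m le_rfl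
          have h6 := h (m - 1) (by omega)
          omega

end Pool.Agent.KS41TD.Hub
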