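import Mathlib

/-! Rooted forests on the vertex set, treedepth, and the classical fact that a finite graph without
a path on more than `n` vertices has treedepth at most `n`. -/

set_option autoImplicit false

namespace Pool.Agent.KS41TD

/-- A rooted forest on the set `V`: every vertex has at most one parent, and `level v` is the number
of vertices on the path from `v` to its root. -/
structure RootedForest (V : Type*) where
  /-- the parent of a vertex (`none` for a root) -/
  parent : V → Option V
  /-- number of vertices on the path from the vertex to its root -/
  level : V → ℕ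
  level_root : ∀ v, parent v = none → level v = 1
  level_child : ∀ v w, parent v = some w → level v = level w + 1

/-- `a` is an ancestor of `v` (or equal to `v`). -/
def RootedForest.Anc {V : Type*} (T : RootedForest V) (a v : V) : Prop :=
  Relation.ReflTransGen (fun x y => T.parent x = some y) v a

/-- `G` has treedepth at most `h`: there is a rooted forest on `V` of height at most `h` in which
the two ends of every edge of `G` are in ancestor-descendant relation. -/
def TreedepthLE {V : Type*} (G : SimpleGraph V) (h : ℕ) : Prop :=
  ∃ T : RootedForest V, (∀ v, T.level v ≤ h) ∧ ∀ u v, G.Adj u v → T.Anc u v ∨ T.Anc v u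

namespace TDepth

variable {V : Type*} {G : SimpleGraph V}

theorem anc_step {T : RootedForest V} {v x w : V} (hx : x ≠ v) (hp : T.parent x = some w) :
    T.Anc v x ↔ T.Anc v w := by
  constructor
  · intro h
    rcases Relation.ReflTransGen.cases_head h with h | ⟨y, hy, h⟩
    · exact absurd h hx
    · have hyw : y = w := by
        have := hy.symm.trans hp
        exact Option.some.inj this
      rw [← hyw]; exact h
  · intro h
    exact Relation.ReflTransGen.head hp h

theorem anc_root {T : RootedForest V} {v x : V} (hp : T.parent x = none) (h : T.Anc v x) :
    x = v := by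
  rcases Relation.ReflTransGen.cases_head h with h | ⟨y, hy, h⟩
  · exact h
  · rw [hp] at hy; exact absurd hy (by simp)

theorem path_of_level {T : RootedForest V} (hT : ∀ v w, T.parent v = some w → G.Adj v w) :
    ∀ (n : ℕ) (v : V), T.level v = n → ∃ (u : V) (p : G.Walk v u), p.IsPath ∧
      p.length + 1 = T.level v ∧ ∀ x ∈ p.support, T.level x ≤ T.level v := by
  intro n
  induction n with
  | zero =>
    intro v hv
    exfalso
    rcases hp : T.parent v with _ | w
    · have := T.level_root v hp; omega
    · have := T.level_child v w hp; omega
  | succ n ih =>
    intro v hv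
    rcases hp : T.parent v with _ | w
    · refine ⟨v, SimpleGraph.Walk.nil, SimpleGraph.Walk.IsPath.nil, ?_, ?_⟩
      · have := T.level_root v hp; simp [this]
      · intro x hx
        simp at hx
        rw [hx]
    · have hlev := T.level_child v w hp
      obtain ⟨u, p, hpp, hlen, hsup⟩ := ih w (by omega)
      refine ⟨u, SimpleGraph.Walk.cons (hT v w hp) p, ?_, ?_, ?_⟩
      · rw [SimpleGraph.Walk.cons_isPath_iff]
        refine ⟨hpp, fun hv => ?_⟩
        have := hsup v hv
        omega
      · rw [SimpleGraph.Walk.length_cons]; omega
      · intro x hx
        rw [SimpleGraph.Walk.support_cons, List.mem_cons] at hx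
        rcases hx with rfl | hx
        · exact le_refl _
        · have := hsup x hx; omega

open Classical in
/-- re-hang the subtree of `v` below `u` -/
noncomputable def rehang (T : RootedForest V) (u v : V) (hvu : ¬ T.Anc v u)
    (hl : T.level v ≤ T.level u) : RootedForest V where
  parent x := if x = v then some u else T.parent x
  level x := if T.Anc v x then T.level x + (T.level u + 1 - T.level v) else T.level x
  level_root := by
    intro x hx
    by_cases hxv : x = v
    · rw [if_pos hxv] at hx; exact absurd hx (by simp)
    · rw [if_neg hxv] at hx
      have : ¬ T.Anc v x := fun h => hxv (anc_root hx h)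
      rw [if_neg this]
      exact T.level_root x hx
  level_child := by
    intro x w hx
    by_cases hxv : x = v
    · rw [if_pos hxv] at hx
      have hw : u = w := Option.some.inj hx
      subst hw
      have h1 : T.Anc v x := by rw [hxv]; exact Relation.ReflTransGen.refl
      rw [if_pos h1, if_neg hvu, hxv]
      omega
    · rw [if_neg hxv] at hx
      have hiff := anc_step hxv hx
      have hlev := T.level_child x w hx
      by_cases hw : T.Anc v w
      · rw [if_pos (hiff.2 hw), if_pos hw]; omega
      · rw [if_neg (fun h => hw (hiff.1 h)), if_neg hw]; omega

/-- a finite graph in which every path has fewer than `n` edges has treedepth at most `n` -/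
theorem treedepthLE_of_path [Finite V] (n : ℕ)
    (hn : ∀ (u v : V) (p : G.Walk u v), p.IsPath → p.length < n) : TreedepthLE G n := by
  classical
  cases nonempty_fintype V
  let good : RootedForest V → Prop := fun T => ∀ v w, T.parent v = some w → G.Adj v w
  have hbd : ∀ T, good T → ∀ v, T.level v ≤ n := by
    intro T hT v
    obtain ⟨u, p, hp, hlen, -⟩ := path_of_level hT _ v rfl
    have := hn v u p hp
    omega
  let S : Set ℕ := {s | ∃ T, good T ∧ ∑ v, T.level v = s}
  have hSne : S.Nonempty := by
    refine ⟨_, ⟨fun _ => none, fun _ => 1, fun _ _ => rfl, fun v w h => absurd h (by simp)⟩, ?_, rfl⟩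
    intro v w h
    exact absurd h (by simp)
  have hSbd : BddAbove S := by
    refine ⟨Fintype.card V * n, ?_⟩
    rintro s ⟨T, hT, rfl⟩
    calc ∑ v, T.level v ≤ ∑ v : V, n := Finset.sum_le_sum (fun v _ => hbd T hT v)
      _ = Fintype.card V * n := by simp
  obtain ⟨T, hT, hTs⟩ := Nat.sSup_mem hSne hSbd
  refine ⟨T, hbd T hT, ?_⟩
  have key : ∀ u v, G.Adj u v → T.level v ≤ T.level u → T.Anc u v ∨ T.Anc v u := by
    intro u v huv hl
    by_contra hcon
    push Not at hcon
    obtain ⟨h1, h2⟩ := hcon
    let T' := rehang T u v h2 hl
    have hT' : good T' := by
      intro x w hx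
      by_cases hxv : x = v
      · have hx' : some u = some w := by
          have : T'.parent x = some u := if_pos hxv
          rw [← this]; exact hx
        have hw : u = w := Option.some.inj hx'
        rw [hxv, ← hw]
        exact huv.symm
      · have hx' : T'.parent x = T.parent x := if_neg hxv
        rw [hx'] at hx
        exact hT x w hx
    have hle : ∀ x, T.level x ≤ T'.level x := by
      intro x
      change T.level x ≤ if T.Anc v x then T.level x + (T.level u + 1 - T.level v) else T.level x
      split_ifs <;> omega
    have hlt : T.level v < T'.level v := by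
      change T.level v < if T.Anc v v then T.level v + (T.level u + 1 - T.level v) else T.level v
      rw [if_pos (show T.Anc v v from Relation.ReflTransGen.refl)]
      omega
    have hsum : ∑ x, T.level x < ∑ x, T'.level x :=
      Finset.sum_lt_sum (fun x _ => hle x) ⟨v, Finset.mem_univ v, hlt⟩
    have hmem : ∑ x, T'.level x ∈ S := ⟨T', hT', rfl⟩
    have := le_csSup hSbd hmem
    omega
  intro u v huv
  rcases le_total (T.level v) (T.level u) with h | h
  · exact key u v huv h
  · exact (key v u huv.symm h).symm

/-- large treedepth gives a long path -/
theorem exists_path [Finite V] (n : ℕ) (h : ¬ TreedepthLE G n) :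
    ∃ f : ℕ → V, (∀ i, i ≤ n → ∀ j, j ≤ n → f i = f j → i = j) ∧
      ∀ i, i < n → G.Adj (f i) (f (i + 1)) := by
  by_contra hcon
  apply h
  apply treedepthLE_of_path
  intro u v p hp
  by_contra hlen
  push Not at hlen
  apply hcon
  refine ⟨fun i => p.getVert i, ?_, ?_⟩
  · intro i hi j hj hij
    exact hp.getVert_injOn (by simp; omega) (by simp; omega) hij
  · intro i hi
    exact p.adj_getVert_succ (by omega)

end TDepth

end Pool.Agent.KS41TD
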